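import Pool.Agent.Lib.MP_40f35d_gt.H.Rd

/-!
# The long words
-/

set_option autoImplicit false

namespace Pool.Agent.Lib.MP_40f35d_gt.H

/-- A nonempty list of children `τ'` of `τ`, each of which (letterwise under `r`) can be read along `τ`
from the first to the last position: all children but the last are read as loops in the first
copy of `τ`, the last one crosses. -/
theorem rd_block (r : ℕ → ℕ) (τ : List ℕ) (hτ : τ ≠ []) (c : List (List ℕ)) (hc : c ≠ [])
    (h : ∀ τ' ∈ c, τ' ≠ [] ∧ Rd τ (τ'.map r) 0 (τ.length - 1)) :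
    Rd (τ ++ τ.reverse) ((c.flatMap fun σ => σ ++ σ.reverse).map r) 0
      ((τ ++ τ.reverse).length - 1) := by
  have h0 := List.length_pos_of_ne_nil hτ
  induction c with
  | nil => exact absurd rfl hc
  | cons σ c ih =>
    have h1 := (h σ (by simp)).2
    rw [List.flatMap_cons, List.map_append, List.map_append, List.map_reverse]
    by_cases hc' : c = []
    · subst hc'
      rw [List.flatMap_nil, List.map_nil, List.append_nil]
      have h2 := h1.reverse.mirror
      rw [Nat.sub_self, Nat.sub_zero] at h2
      refine Rd.join hτ (by simpa using hτ) h1 ?_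
      rw [List.length_reverse]
      exact h2
    · have h2 := (h1.append h1.reverse ⟨by omega, by omega⟩).left τ.reverse
      exact h2.append (ih hc' fun τ' hτ' => h τ' (List.mem_cons_of_mem _ hτ')) ⟨by omega, by omega⟩

theorem rd_long (r : ℕ → ℕ) (O : List (List ℕ)) (hO : O ≠ []) (c : List ℕ → List (List ℕ))
    (h : ∀ τ ∈ O, τ ≠ [] ∧ c τ ≠ [] ∧
      ∀ τ' ∈ c τ, τ' ≠ [] ∧ Rd τ (τ'.map r) 0 (τ.length - 1)) :
    Rd (O.flatMap fun σ => σ ++ σ.reverse)
      (((O.flatMap c).flatMap fun σ => σ ++ σ.reverse).map r) 0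
      ((O.flatMap fun σ => σ ++ σ.reverse).length - 1) := by
  induction O with
  | nil => exact absurd rfl hO
  | cons τ O ih =>
    obtain ⟨h1, h2, h3⟩ := h τ (by simp)
    have h4 := rd_block r τ h1 (c τ) h2 h3
    by_cases hO' : O = []
    · subst hO'
      simpa using h4
    · have h5 := ih hO' fun τ' hτ' => h τ' (List.mem_cons_of_mem _ hτ')
      rw [List.flatMap_cons, List.flatMap_cons, List.flatMap_append, List.map_append]
      refine Rd.join (by simp [h1]) ?_ h4 h5
      obtain ⟨σ, hσ⟩ := List.exists_mem_of_ne_nil O hO'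
      intro h6
      rw [List.flatMap_eq_nil_iff] at h6
      have h7 := h6 σ hσ
      rw [List.append_eq_nil_iff] at h7
      exact (h σ (List.mem_cons_of_mem _ hσ)).1 h7.1

/-- The long word is a chain for a symmetric relation if the words are, and all first letters
are related. -/
theorem isChain_long (R : ℕ → ℕ → Prop) (hs : ∀ i j, R i j → R j i) (O : List (List ℕ))
    (h : ∀ τ ∈ O, τ ≠ [] ∧ τ.IsChain R ∧ ∀ i ∈ τ, R i i)
    (h' : ∀ τ ∈ O, ∀ σ ∈ O, ∀ i j, τ.head? = some i → σ.head? = some j → R i j) :
    (O.flatMap fun σ => σ ++ σ.reverse).IsChain R := by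
  have hhead : ∀ O : List (List ℕ), (∀ τ ∈ O, τ ≠ []) → ∀ j,
      (O.flatMap fun σ => σ ++ σ.reverse).head? = some j → ∃ σ ∈ O, σ.head? = some j := by
    intro O hO j hj
    rcases O with _ | ⟨σ, O⟩
    · simp at hj
    · refine ⟨σ, by simp, ?_⟩
      rw [List.flatMap_cons, List.append_assoc,
        List.head?_append_of_ne_nil _ (hO σ (by simp))] at hj
      exact hj
  induction O with
  | nil => simp
  | cons τ O ih =>
    obtain ⟨h1, h2, h3⟩ := h τ (by simp)
    rw [List.flatMap_cons, List.isChain_append]
    refine ⟨?_, ih (fun σ hσ => h σ (List.mem_cons_of_mem _ hσ))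
      (fun σ hσ σ' hσ' => h' σ (List.mem_cons_of_mem _ hσ) σ' (List.mem_cons_of_mem _ hσ')), ?_⟩
    · rw [List.isChain_append]
      refine ⟨h2, ?_, ?_⟩
      · rw [List.isChain_reverse]
        exact h2.imp fun a b hab => hs a b hab
      · intro x hx y hy
        rw [List.head?_reverse] at hy
        have hxy : x = y := by
          have hx' : τ.getLast? = some x := hx
          have hy' : τ.getLast? = some y := hy
          rw [hx'] at hy'
          exact Option.some.inj hy'
        subst hxy
        exact h3 x (List.mem_of_mem_getLast? hx)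
    · intro x hx y hy
      rw [List.getLast?_append_of_ne_nil _ (by simpa using h1), List.getLast?_reverse] at hx
      obtain ⟨σ, hσ, hσy⟩ := hhead O (fun σ hσ => (h σ (List.mem_cons_of_mem _ hσ)).1) y hy
      exact h' τ (by simp) σ (List.mem_cons_of_mem _ hσ) x y hx hσy

end Pool.Agent.Lib.MP_40f35d_gt.H
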