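import Mathlib

/-!
# Threads in an inverse sequence of finite sets, and the ordered tree of words
-/

set_option autoImplicit false

namespace Pool.Agent.Lib.MP_40f35d_gt.H

/-- A decreasing sequence of nonempty finite sets has a common point. -/
theorem thread_inter {T : Type} (F : ℕ → Set T) (hfin : (F 0).Finite)
    (hne : ∀ k, (F k).Nonempty) (hdec : ∀ k, F (k + 1) ⊆ F k) : ∃ x, ∀ k, x ∈ F k := by
  by_contra hcon
  push Not at hcon
  choose κ hκ using hcon
  have hmono : ∀ k l, k ≤ l → F l ⊆ F k := by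
    intro k l hkl
    induction l, hkl using Nat.le_induction with
    | base => exact subset_rfl
    | succ l _ ih => exact (hdec l).trans ih
  obtain ⟨K, hK⟩ : ∃ K, ∀ x ∈ F 0, κ x ≤ K := by
    obtain ⟨K, hK⟩ := (hfin.image κ).bddAbove
    exact ⟨K, fun x hx => hK (Set.mem_image_of_mem κ hx)⟩
  obtain ⟨x, hx⟩ := hne K
  exact hκ x (hmono _ _ (hK x (hmono 0 K (Nat.zero_le K) hx)) hx)

/-- The image of the set number `n + k` in the set number `n`. -/
def threadIm {T : Type} (S : ℕ → Set T) (Ψ : ℕ → T → T) : ℕ → ℕ → Set T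
  | 0, n => S n
  | k + 1, n => Ψ n '' threadIm S Ψ k (n + 1)

/-- König's lemma for an inverse sequence of nonempty finite sets. -/
theorem thread {T : Type} (S : ℕ → Set T) (hfin : ∀ n, (S n).Finite) (hne : ∀ n, (S n).Nonempty)
    (Ψ : ℕ → T → T) (hΨ : ∀ n, ∀ τ ∈ S (n + 1), Ψ n τ ∈ S n) :
    ∃ τ : ℕ → T, ∀ n, τ n ∈ S n ∧ Ψ n (τ (n + 1)) = τ n := by
  have hdec : ∀ k n, threadIm S Ψ (k + 1) n ⊆ threadIm S Ψ k n := by
    intro k
    induction k with
    | zero =>
      rintro n _ ⟨σ, hσ, rfl⟩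
      exact hΨ n σ hσ
    | succ k ih =>
      intro n
      exact Set.image_mono (ih (n + 1))
  have hnn : ∀ k n, (threadIm S Ψ k n).Nonempty := by
    intro k
    induction k with
    | zero => exact hne
    | succ k ih => exact fun n => (ih (n + 1)).image _
  have hst : ∀ n, ∃ x, ∀ k, x ∈ threadIm S Ψ k n := fun n =>
    thread_inter (fun k => threadIm S Ψ k n) (hfin n) (fun k => hnn k n) (fun k => hdec k n)
  have hup : ∀ n x, (∀ k, x ∈ threadIm S Ψ k n) →
      ∃ y, (∀ k, y ∈ threadIm S Ψ k (n + 1)) ∧ Ψ n y = x := by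
    intro n x hx
    obtain ⟨y, hy⟩ := thread_inter (fun k => {y | y ∈ threadIm S Ψ k (n + 1) ∧ Ψ n y = x})
      ((hfin (n + 1)).subset fun y hy => hy.1)
      (fun k => by
        obtain ⟨y, hy, hyx⟩ := hx (k + 1)
        exact ⟨y, hy, hyx⟩)
      (fun k y hy => ⟨hdec k (n + 1) hy.1, hy.2⟩)
    exact ⟨y, fun k => (hy k).1, (hy 0).2⟩
  choose x0 hx0 using hst 0
  choose! up hup1 hup2 using hup
  let τ : ℕ → T := fun n => Nat.rec x0 (fun n x => up n x) n
  have hτ : ∀ n, ∀ k, τ n ∈ threadIm S Ψ k n := by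
    intro n
    induction n with
    | zero => exact hx0
    | succ n ih => exact hup1 n (τ n) ih
  exact ⟨τ, fun n => ⟨hτ n 0, hup2 n (τ n) (hτ n)⟩⟩

/-- Lists of the elements of the finite sets `A n` such that the list for `n + 1` is the
concatenation of nonempty lists of children of the members of the list for `n`. -/
theorem ordered {T : Type} (A : ℕ → Set T) (hfin : ∀ n, (A n).Finite) (hne : (A 0).Nonempty)
    (Ψ : ℕ → T → T) (hΨ : ∀ n, Ψ n '' A (n + 1) = A n) :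
    ∃ (O : ℕ → List T) (c : ℕ → T → List T), (∀ n τ, τ ∈ O n ↔ τ ∈ A n) ∧
      (∀ n, O (n + 1) = (O n).flatMap (c n)) ∧
      ∀ n, ∀ τ ∈ A n, c n τ ≠ [] ∧ ∀ τ' ∈ c n τ, Ψ n τ' = τ ∧ τ' ∈ A (n + 1) := by
  have hc : ∀ n τ, ∃ l : List T, ∀ τ', τ' ∈ l ↔ (Ψ n τ' = τ ∧ τ' ∈ A (n + 1)) := by
    intro n τ
    have h1 : {τ' | Ψ n τ' = τ ∧ τ' ∈ A (n + 1)}.Finite := (hfin (n + 1)).subset fun x hx => hx.2
    refine ⟨h1.toFinset.toList, fun τ' => ?_⟩
    rw [Finset.mem_toList, Set.Finite.mem_toFinset]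
    rfl
  choose c hc using hc
  let O : ℕ → List T := fun n => Nat.rec (hfin 0).toFinset.toList (fun n l => l.flatMap (c n)) n
  have hO : ∀ n τ, τ ∈ O n ↔ τ ∈ A n := by
    intro n
    induction n with
    | zero =>
      intro τ
      change τ ∈ (hfin 0).toFinset.toList ↔ _
      rw [Finset.mem_toList, Set.Finite.mem_toFinset]
    | succ n ih =>
      intro τ'
      change τ' ∈ (O n).flatMap (c n) ↔ _
      rw [List.mem_flatMap]
      constructor
      · rintro ⟨τ, -, hτ⟩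
        exact ((hc n τ τ').1 hτ).2
      · intro hτ
        refine ⟨Ψ n τ', (ih _).2 ?_, (hc n _ _).2 ⟨rfl, hτ⟩⟩
        rw [← hΨ n]
        exact Set.mem_image_of_mem _ hτ
  refine ⟨O, c, hO, fun n => rfl, ?_⟩
  intro n τ hτ
  refine ⟨?_, fun τ' hτ' => (hc n τ τ').1 hτ'⟩
  rw [← hΨ n] at hτ
  obtain ⟨τ', h1, h2⟩ := hτ
  have h3 := (hc n τ τ').2 ⟨h2, h1⟩
  intro h4
  rw [h4] at h3
  exact absurd h3 List.not_mem_nil

end Pool.Agent.Lib.MP_40f35d_gt.H
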