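import Pool.Agent.Lib.MP_40f35d_gt.H.Base

/-!
# The tower lemma
-/

set_option autoImplicit false

open Set Topology

namespace Pool.Agent.Lib.MP_40f35d_gt.H

/-- The space has maps onto intervals with small fibres. -/
def EM (Y : Type) [MetricSpace Y] : Prop :=
  ∀ ε : ℝ, 0 < ε → ∃ (π : Y → ℝ) (D δ : ℝ), Continuous π ∧ 0 < D ∧ range π = Icc 0 D ∧ 0 < δ ∧
    ∀ t u, |π t - π u| < δ → dist t u < ε

theorem chainable_of_em {Y : Type} [MetricSpace Y] (h : EM Y) : Chainable Y := by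
  intro ε hε
  obtain ⟨π, D, δ, hπ, hD, hr, hδ, hsm⟩ := h (ε / 2) (half_pos hε)
  obtain ⟨k, hk⟩ := exists_nat_gt (2 * D / δ)
  have hk0 : (0 : ℝ) < k := lt_of_le_of_lt (by positivity) hk
  set w : ℝ := D / k with hw
  have hw0 : 0 < w := div_pos hD hk0
  have hwδ : 2 * w < δ := by
    rw [hw, ← mul_div_assoc, div_lt_iff₀ hk0]
    rw [div_lt_iff₀ hδ] at hk
    linarith
  have hkw : k * w = D := by
    rw [hw]
    field_simp
  refine ⟨k + 1, fun i => π ⁻¹' Ioo (((i : ℕ) : ℝ) * w - w) (((i : ℕ) : ℝ) * w + w), ?_, ?_, ?_, ?_⟩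
  · intro i
    exact isOpen_Ioo.preimage hπ
  · ext y
    simp only [mem_iUnion, mem_univ, iff_true]
    have hy : π y ∈ Icc 0 D := hr ▸ mem_range_self y
    have hf := Nat.floor_le (div_nonneg hy.1 hw0.le)
    have hf' := Nat.lt_floor_add_one (π y / w)
    rw [le_div_iff₀ hw0] at hf
    rw [div_lt_iff₀ hw0] at hf'
    have hlt : ⌊π y / w⌋₊ < k + 1 := by
      have h1 : (⌊π y / w⌋₊ : ℝ) * w ≤ k * w := by rw [hkw]; exact hf.trans hy.2
      have h2 : (⌊π y / w⌋₊ : ℝ) ≤ k := le_of_mul_le_mul_right h1 hw0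
      have h3 : ⌊π y / w⌋₊ ≤ k := by exact_mod_cast h2
      omega
    refine ⟨⟨⌊π y / w⌋₊, hlt⟩, ?_, ?_⟩
    · simp only
      linarith
    · simp only
      linarith
  · intro i
    refine lt_of_le_of_lt (Metric.diam_le_of_forall_dist_le (half_pos hε).le ?_) (half_lt_self hε)
    rintro t ⟨h1, h2⟩ u ⟨h3, h4⟩
    refine (hsm t u ?_).le
    rw [abs_lt]
    constructor <;> linarith
  · intro i j
    constructor
    · rintro ⟨y, ⟨h1, h2⟩, h3, h4⟩
      have a1 : ((i : ℕ) : ℝ) * w < (((j : ℕ) : ℝ) + 2) * w := by linarith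
      have a2 : ((j : ℕ) : ℝ) * w < (((i : ℕ) : ℝ) + 2) * w := by linarith
      have b1 := lt_of_mul_lt_mul_right a1 hw0.le
      have b2 := lt_of_mul_lt_mul_right a2 hw0.le
      have c1 : (i : ℕ) < (j : ℕ) + 2 := by exact_mod_cast b1
      have c2 : (j : ℕ) < (i : ℕ) + 2 := by exact_mod_cast b2
      omega
    · rintro ⟨h1, h2⟩
      have hi : (((i : ℕ) : ℝ)) ≤ k := by
        have := i.2
        have h3 : (i : ℕ) ≤ k := by omega
        exact_mod_cast h3
      have hj : (((j : ℕ) : ℝ)) ≤ k := by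
        have := j.2
        have h3 : (j : ℕ) ≤ k := by omega
        exact_mod_cast h3
      have hv : ((i : ℕ) + (j : ℕ) : ℝ) / 2 * w ∈ Icc 0 D := by
        constructor
        · positivity
        · rw [← hkw]
          exact mul_le_mul_of_nonneg_right (by linarith) hw0.le
      rw [← hr] at hv
      obtain ⟨y, hy⟩ := hv
      have d1 : ((i : ℕ) : ℝ) ≤ (j : ℕ) + 1 := by exact_mod_cast h1
      have d2 : ((j : ℕ) : ℝ) ≤ (i : ℕ) + 1 := by exact_mod_cast h2
      have e1 := mul_le_mul_of_nonneg_right d1 hw0.le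
      have e2 := mul_le_mul_of_nonneg_right d2 hw0.le
      refine ⟨y, ⟨?_, ?_⟩, ?_, ?_⟩ <;> rw [hy] <;> nlinarith

theorem connected_of_em {Y : Type} [MetricSpace Y] [CompactSpace Y] (h : EM Y) :
    ConnectedSpace Y := by
  have hne : Nonempty Y := by
    obtain ⟨π, D, δ, hπ, hD, hr, hδ, hsm⟩ := h 1 one_pos
    have h0 : (0 : ℝ) ∈ Icc 0 D := ⟨le_rfl, hD.le⟩
    rw [← hr] at h0
    obtain ⟨y, -⟩ := h0
    exact ⟨y⟩
  have hp : PreconnectedSpace Y := by
    refine ⟨?_⟩
    rw [isPreconnected_closed_iff]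
    intro A B hA hB hAB hA' hB'
    by_contra hcon
    have hdis : Disjoint A B := by
      rw [Set.disjoint_left]
      intro y hy hy'
      exact hcon ⟨y, mem_univ y, hy, hy'⟩
    obtain ⟨η, hη, hsep⟩ := hdis.exists_thickenings hA.isCompact hB
    obtain ⟨π, D, δ, hπ, hD, hr, hδ, hsm⟩ := h η hη
    have hI : IsPreconnected (Icc (0 : ℝ) D) := isPreconnected_Icc
    rw [isPreconnected_closed_iff] at hI
    obtain ⟨a, -, ha⟩ := hA'
    obtain ⟨b, -, hb⟩ := hB'
    obtain ⟨v, -, ⟨t, ht, htv⟩, u, hu, huv⟩ := hI (π '' A) (π '' B)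
      (hA.isCompact.image hπ).isClosed (hB.isCompact.image hπ).isClosed
      (by
        rw [← hr, ← image_union]
        rintro _ ⟨y, rfl⟩
        exact ⟨y, hAB (mem_univ y), rfl⟩)
      ⟨π a, hr ▸ mem_range_self a, a, ha, rfl⟩ ⟨π b, hr ▸ mem_range_self b, b, hb, rfl⟩
    have hd : dist t u < η := hsm t u (by rw [htv, huv, sub_self, abs_zero]; exact hδ)
    rw [Set.disjoint_left] at hsep
    refine hsep (a := u) ?_ ?_
    · rw [Metric.mem_thickening_iff]
      exact ⟨t, ht, by rw [dist_comm]; exact hd⟩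
    · rw [Metric.mem_thickening_iff]
      exact ⟨u, hu, by rw [dist_self]; exact hη⟩
  exact { toPreconnectedSpace := hp, toNonempty := hne }

/-- Small fibres of the coordinates, by compactness. -/
theorem em_aux {Y : Type} [MetricSpace Y] [CompactSpace Y] (p : ℕ → Y → ℝ)
    (hp : ∀ n, Continuous (p n)) (hi : ∀ t u, (∀ n, p n t = p n u) → t = u)
    (hm : ∀ n t u, |p n t - p n u| ≤ |p (n + 1) t - p (n + 1) u|) (ε : ℝ) (hε : 0 < ε) :
    ∃ n, ∃ δ > 0, ∀ t u, |p n t - p n u| < δ → dist t u < ε := by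
  have hc : IsCompact {q : Y × Y | ε ≤ dist q.1 q.2} :=
    (isClosed_le continuous_const continuous_dist).isCompact
  have hmono : ∀ t u, Monotone fun n => |p n t - p n u| := fun t u =>
    monotone_nat_of_le_succ fun n => hm n t u
  obtain ⟨n, hn⟩ := hc.elim_directed_cover
    (fun n : ℕ => {q : Y × Y | 1 / ((n : ℝ) + 1) < |p n q.1 - p n q.2|})
    (fun n => isOpen_lt continuous_const
      (((hp n).comp continuous_fst).sub ((hp n).comp continuous_snd)).abs)
    (by
      rintro ⟨t, u⟩ htu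
      have hne : t ≠ u := by
        rintro rfl
        have : ε ≤ dist t t := htu
        rw [dist_self] at this
        exact absurd this (not_le.2 hε)
      obtain ⟨m, hm'⟩ : ∃ m, p m t ≠ p m u := by
        by_contra hcon
        push Not at hcon
        exact hne (hi t u hcon)
      have hpos : 0 < |p m t - p m u| := abs_pos.2 (sub_ne_zero.2 hm')
      obtain ⟨k, hk⟩ := exists_nat_one_div_lt hpos
      rw [mem_iUnion]
      refine ⟨max m k, ?_⟩
      refine lt_of_le_of_lt ?_ (hk.trans_le (hmono t u (le_max_left m k)))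
      exact one_div_le_one_div_of_le (by positivity)
        (by
          have : ((k : ℕ) : ℝ) ≤ ((max m k : ℕ) : ℝ) := by exact_mod_cast le_max_right m k
          linarith))
    (by
      refine directed_of_isDirected_le ?_
      intro a b hab
      rintro ⟨t, u⟩ htu
      refine lt_of_le_of_lt ?_ (lt_of_lt_of_le htu (hmono t u hab))
      exact one_div_le_one_div_of_le (by positivity)
        (by
          have : ((a : ℕ) : ℝ) ≤ ((b : ℕ) : ℝ) := by exact_mod_cast hab
          linarith))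
  refine ⟨n, 1 / ((n : ℝ) + 1), by positivity, fun t u htu => ?_⟩
  by_contra hcon
  push Not at hcon
  exact absurd (hn (show (t, u) ∈ {q : Y × Y | ε ≤ dist q.1 q.2} from hcon)) (not_lt.2 htu.le)

theorem thread_real : ∀ (n : ℕ) (ℓ : ℕ → ℝ) (S : ℕ → ℝ → ℝ)
    (_ : ∀ n, ∀ v ∈ Icc 0 (ℓ n), ∃ w ∈ Icc 0 (ℓ (n + 1)), S n w = v)
    (_ : ∀ n t, S n t ∈ Icc 0 (ℓ n)) (v : ℝ) (_ : v ∈ Icc 0 (ℓ n)),
    ∃ t : ℕ → ℝ, t n = v ∧ ∀ k, t k ∈ Icc 0 (ℓ k) ∧ S k (t (k + 1)) = t k := by
  intro n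
  induction n with
  | zero =>
    intro ℓ S hs hr v hv
    choose! σ hσ hσ' using hs
    let t : ℕ → ℝ := fun k => Nat.rec v (fun k x => σ k x) k
    have ht : ∀ k, t k ∈ Icc 0 (ℓ k) := by
      intro k
      induction k with
      | zero => exact hv
      | succ k ih => exact hσ k _ ih
    exact ⟨t, rfl, fun k => ⟨ht k, hσ' k _ (ht k)⟩⟩
  | succ n ih =>
    intro ℓ S hs hr v hv
    obtain ⟨t, h1, h2⟩ := ih (fun k => ℓ (k + 1)) (fun k => S (k + 1)) (fun k => hs (k + 1))
      (fun k => hr (k + 1)) v hv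
    refine ⟨fun k => Nat.casesOn k (S 0 (t 0)) t, h1, fun k => ?_⟩
    cases k with
    | zero => exact ⟨hr 0 _, rfl⟩
    | succ k => exact h2 k

/-- The inverse limit of the intervals `[0, ℓ n]`. -/
theorem invlim (ℓ : ℕ → ℝ) (hℓ : ∀ n, 0 < ℓ n) (S : ℕ → ℝ → ℝ)
    (hS : ∀ n t u, |S n t - S n u| ≤ |t - u|) (h0 : ∀ n, S n 0 = 0)
    (hl : ∀ n, S n (ℓ (n + 1)) = ℓ n) (hr : ∀ n t, S n t ∈ Icc 0 (ℓ n)) :
    ∃ (Y : Type) (_ : MetricSpace Y) (p : ℕ → Y → ℝ), CompactSpace Y ∧
      (∀ n, Continuous (p n)) ∧ (∀ n, range (p n) = Icc 0 (ℓ n)) ∧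
      (∀ n y, S n (p (n + 1) y) = p n y) ∧ EM Y := by
  have hSc : ∀ n, Continuous (S n) := fun n =>
    (LipschitzWith.of_dist_le_mul (K := 1) fun t u => by
      rw [Real.dist_eq, Real.dist_eq, NNReal.coe_one, one_mul]
      exact hS n t u).continuous
  let Z : Set (ℕ → ℝ) := {t | ∀ n, t n ∈ Icc 0 (ℓ n) ∧ S n (t (n + 1)) = t n}
  have hZ : IsClosed Z := by
    have : Z = ⋂ n, ({t : ℕ → ℝ | t n ∈ Icc 0 (ℓ n)} ∩ {t | S n (t (n + 1)) = t n}) := by
      ext t
      simp only [Z, mem_iInter, mem_inter_iff, mem_ofPred_eq]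
    rw [this]
    exact isClosed_iInter fun n => (isClosed_Icc.preimage (continuous_apply n)).inter
      (isClosed_eq ((hSc n).comp (continuous_apply (n + 1))) (continuous_apply n))
  have hZc : IsCompact Z := (isCompact_univ_pi fun n => isCompact_Icc (a := 0) (b := ℓ n)).of_isClosed_subset hZ
    (fun t ht n _ => (ht n).1)
  let _ : MetricSpace Z := TopologicalSpace.metrizableSpaceMetric Z
  have hZcs : CompactSpace Z := isCompact_iff_compactSpace.1 hZc
  have hpc : ∀ n, Continuous fun t : Z => (t : ℕ → ℝ) n := fun n =>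
    (continuous_apply n).comp continuous_subtype_val
  have hsurj : ∀ n, ∀ v ∈ Icc 0 (ℓ n), ∃ w ∈ Icc 0 (ℓ (n + 1)), S n w = v := by
    intro n v hv
    have h1 := intermediate_value_Icc (hℓ (n + 1)).le (hSc n).continuousOn
    rw [h0 n, hl n] at h1
    obtain ⟨w, hw, hw'⟩ := h1 hv
    exact ⟨w, hw, hw'⟩
  have hrange : ∀ n, range (fun t : Z => (t : ℕ → ℝ) n) = Icc 0 (ℓ n) := by
    intro n
    ext v
    constructor
    · rintro ⟨t, rfl⟩
      exact (t.2 n).1
    · intro hv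
      obtain ⟨t, h1, h2⟩ := thread_real n ℓ S hsurj hr v hv
      exact ⟨⟨t, h2⟩, h1⟩
  refine ⟨Z, inferInstance, fun n t => (t : ℕ → ℝ) n, hZcs, hpc, hrange, fun n y => (y.2 n).2, ?_⟩
  intro ε hε
  obtain ⟨n, δ, hδ, h⟩ := em_aux (fun n (t : Z) => (t : ℕ → ℝ) n) hpc
    (fun t u htu => Subtype.ext (funext htu))
    (fun n t u => by
      have h1 := hS n ((t : ℕ → ℝ) (n + 1)) ((u : ℕ → ℝ) (n + 1))
      rw [(t.2 n).2, (u.2 n).2] at h1
      exact h1) ε hε
  exact ⟨fun t => (t : ℕ → ℝ) n, ℓ n, δ, hpc n, hℓ n, hrange n, hδ, h⟩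

/-- A 1-Lipschitz extension of a path on the integers. -/
theorem ext_path (m l : ℕ) (s : ℕ → ℕ) (hs : ∀ i, i ≤ m → s i ≤ l)
    (hs1 : ∀ i, i < m → Nr (s i) (s (i + 1))) :
    ∃ S : ℝ → ℝ, (∀ t u, |S t - S u| ≤ |t - u|) ∧ (∀ t, S t ∈ Icc 0 (l : ℝ)) ∧
      ∀ i, i ≤ m → S i = s i := by
  have hlip : ∀ i d, i + d ≤ m → |(s (i + d) : ℝ) - s i| ≤ d := by
    intro i d
    induction d with
    | zero => intro _; simp
    | succ d ih =>
      intro h
      have h1 := ih (by omega)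
      obtain ⟨h2, h3⟩ := hs1 (i + d) (by omega)
      have h2' : (s (i + d) : ℝ) ≤ s (i + d + 1) + 1 := by exact_mod_cast h2
      have h3' : (s (i + d + 1) : ℝ) ≤ s (i + d) + 1 := by exact_mod_cast h3
      rw [abs_le] at h1 ⊢
      have e : i + (d + 1) = i + d + 1 := rfl
      rw [e]
      push_cast
      constructor <;> linarith [h1.1, h1.2]
  have hL : LipschitzOnWith 1 (fun t : ℝ => (s ⌊t⌋₊ : ℝ)) {t : ℝ | ∃ i : ℕ, i ≤ m ∧ t = i} := by
    refine LipschitzOnWith.of_dist_le_mul ?_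
    rintro _ ⟨i, hi, rfl⟩ _ ⟨j, hj, rfl⟩
    rw [Real.dist_eq, Real.dist_eq, NNReal.coe_one, one_mul]
    simp only [Nat.floor_natCast]
    rcases le_total i j with hij | hij
    · obtain ⟨d, rfl⟩ := Nat.exists_eq_add_of_le hij
      have h1 := hlip i d hj
      rw [abs_sub_comm] at h1
      refine h1.trans ?_
      push_cast
      rw [abs_sub_comm]
      simp
    · obtain ⟨d, rfl⟩ := Nat.exists_eq_add_of_le hij
      have h1 := hlip j d hi
      refine h1.trans ?_
      push_cast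
      simp
  obtain ⟨g, hg, hgs⟩ := hL.extend_real
  have hg' : ∀ t u, |g t - g u| ≤ |t - u| := by
    intro t u
    have := hg.dist_le_mul t u
    rw [Real.dist_eq, Real.dist_eq, NNReal.coe_one, one_mul] at this
    exact this
  refine ⟨fun t => max 0 (min (l : ℝ) (g t)), ?_, ?_, ?_⟩
  · intro t u
    refine le_trans ?_ (hg' t u)
    have h1 := abs_max_sub_max_le_max 0 (min (l : ℝ) (g t)) 0 (min (l : ℝ) (g u))
    have h2 := abs_min_sub_min_le_max (l : ℝ) (g t) (l : ℝ) (g u)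
    rw [sub_self, abs_zero] at h1 h2
    rw [max_eq_right (abs_nonneg (min (l : ℝ) (g t) - min (l : ℝ) (g u)))] at h1
    rw [max_eq_right (abs_nonneg (g t - g u))] at h2
    exact h1.trans h2
  · intro t
    exact ⟨le_max_left _ _, max_le (Nat.cast_nonneg l) (min_le_left _ _)⟩
  · intro i hi
    have h1 : g i = s i := by
      have := hgs (show (i : ℝ) ∈ {t : ℝ | ∃ i : ℕ, i ≤ m ∧ t = i} from ⟨i, hi, rfl⟩)
      simp only [Nat.floor_natCast] at this
      exact this.symm
    have h2 : (s i : ℝ) ≤ l := by exact_mod_cast hs i hi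
    simp only [h1]
    rw [min_eq_right h2, max_eq_right (Nat.cast_nonneg _)]

/-- The inverse limit `Y` of the intervals `[0, ℓ n]` under 1-Lipschitz extensions of the maps `s n` is
a chainable continuum, which is mapped onto `K` by `t ↦ lim x n ⌊t n⌋`. -/
theorem tower {E : Type} [MetricSpace E] (K : Set E) (hK : IsCompact K) (ε : ℕ → ℝ)
    (hε : Summable ε) (ℓ : ℕ → ℕ) (hℓ : ∀ n, 1 ≤ ℓ n) (x : ℕ → ℕ → E)
    (hx : ∀ n i, i ≤ ℓ n → x n i ∈ K) (s : ℕ → ℕ → ℕ)
    (hs : ∀ n i, i ≤ ℓ (n + 1) → s n i ≤ ℓ n)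
    (hs1 : ∀ n i, i < ℓ (n + 1) → Nr (s n i) (s n (i + 1)))
    (hs0 : ∀ n, s n 0 = 0) (hsl : ∀ n, s n (ℓ (n + 1)) = ℓ n)
    (hadj : ∀ n i, i < ℓ n → dist (x n i) (x n (i + 1)) ≤ ε n)
    (hproj : ∀ n i, i ≤ ℓ (n + 1) → dist (x (n + 1) i) (x n (s n i)) ≤ ε n)
    (hdense : ∀ y ∈ K, ∀ n, ∃ i, i ≤ ℓ n ∧ dist y (x n i) ≤ ε n) : WC K := by
  have hε0 : ∀ n, 0 ≤ ε n := fun n => dist_nonneg.trans (hproj n 0 (Nat.zero_le _))
  choose S hS1 hS2 hS3 using fun n => ext_path (ℓ (n + 1)) (ℓ n) (s n) (hs n) (hs1 n)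
  obtain ⟨Y, iY, p, hYc, hp, hpr, hpS, hEM⟩ := invlim (fun n => (ℓ n : ℝ))
    (fun n => by exact_mod_cast hℓ n) S hS1
    (fun n => by
      have := hS3 n 0 (Nat.zero_le _)
      rw [hs0 n] at this
      simpa using this)
    (fun n => by
      have := hS3 n (ℓ (n + 1)) le_rfl
      rw [hsl n] at this
      exact this) hS2
  have hY1 := connected_of_em hEM
  have hY2 := chainable_of_em hEM
  have hpm : ∀ n y, 0 ≤ p n y ∧ p n y ≤ ℓ n := fun n y => by
    have : p n y ∈ Icc 0 (ℓ n : ℝ) := hpr n ▸ mem_range_self y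
    exact this
  have hfl : ∀ n y, ⌊p n y⌋₊ ≤ ℓ n := fun n y => by
    have := Nat.floor_le_floor (hpm n y).2
    rwa [Nat.floor_natCast] at this
  -- nearby indices
  have hnear : ∀ n i j, i ≤ ℓ n → j ≤ ℓ n → Nr i j → dist (x n i) (x n j) ≤ ε n := by
    intro n i j hi hj hij
    obtain ⟨h1, h2⟩ := hij
    rcases lt_trichotomy i j with h | h | h
    · have e : j = i + 1 := by omega
      subst e
      exact hadj n i (by omega)
    · subst h
      rw [dist_self]
      exact hε0 n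
    · have e : i = j + 1 := by omega
      subst e
      rw [dist_comm]
      exact hadj n j (by omega)
  set g : ℕ → Y → E := fun n y => x n ⌊p n y⌋₊ with hg
  have hgK : ∀ n y, g n y ∈ K := fun n y => hx n _ (hfl n y)
  have hgd : ∀ y n, dist (g n y) (g (n + 1) y) ≤ 2 * ε n := by
    intro y n
    set i := ⌊p (n + 1) y⌋₊ with hi
    have hil : i ≤ ℓ (n + 1) := hfl (n + 1) y
    have h1 : |p (n + 1) y - (i : ℝ)| < 1 := by
      have a1 := Nat.floor_le (hpm (n + 1) y).1
      have a2 := Nat.lt_floor_add_one (p (n + 1) y)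
      rw [abs_lt]
      constructor <;> linarith
    have h2 : |p n y - (s n i : ℝ)| < 1 := by
      have a1 := hS1 n (p (n + 1) y) i
      rw [hpS n y, hS3 n i hil] at a1
      exact lt_of_le_of_lt a1 h1
    rw [abs_lt] at h2
    have h3 : Nr ⌊p n y⌋₊ (s n i) := by
      constructor
      · have : (⌊p n y⌋₊ : ℝ) < s n i + 1 := lt_of_le_of_lt (Nat.floor_le (hpm n y).1) (by linarith)
        have : ⌊p n y⌋₊ < s n i + 1 := by exact_mod_cast this
        omega
      · have a2 := Nat.lt_floor_add_one (p n y)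
        have : (s n i : ℝ) < ⌊p n y⌋₊ + 2 := by linarith [h2.1]
        have : s n i < ⌊p n y⌋₊ + 2 := by exact_mod_cast this
        omega
    have h4 := hnear n _ _ (hfl n y) (hs n i hil) h3
    have h5 := hproj n i hil
    have h6 := dist_triangle (g n y) (x n (s n i)) (g (n + 1) y)
    rw [dist_comm (x n (s n i))] at h6
    have h7 : dist (g n y) (x n (s n i)) ≤ ε n := h4
    have h8 : dist (g (n + 1) y) (x n (s n i)) ≤ ε n := h5
    linarith
  have hsum : Summable fun n => 2 * ε n := hε.mul_left 2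
  have hlim : ∀ y, ∃ v ∈ K, Filter.Tendsto (fun n => g n y) Filter.atTop (𝓝 v) := fun y =>
    cauchySeq_tendsto_of_isComplete hK.isComplete (fun n => hgK n y)
      (cauchySeq_of_dist_le_of_summable _ (hgd y) hsum)
  choose G hGK hG using hlim
  set η : ℕ → ℝ := fun n => ∑' m, 2 * ε (n + m) with hη
  have hGd : ∀ y n, dist (g n y) (G y) ≤ η n := fun y n =>
    dist_le_tsum_of_dist_le_of_tendsto _ (hgd y) hsum (hG y) n
  have hηt : Filter.Tendsto η Filter.atTop (𝓝 0) := by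
    have := tendsto_sum_nat_add (fun n => 2 * ε n)
    simp only [add_comm] at this
    simpa only [hη, add_comm] using this
  have hεt : Filter.Tendsto ε Filter.atTop (𝓝 0) := hε.tendsto_atTop_zero
  have hsmall : ∀ e : ℝ, 0 < e → ∃ n, ε n + 2 * η n < e := by
    intro e he
    have h1 : Filter.Tendsto (fun n => ε n + 2 * η n) Filter.atTop (𝓝 (0 + 2 * 0)) :=
      hεt.add (hηt.const_mul 2)
    rw [mul_zero, add_zero] at h1
    exact (h1.eventually_lt_const he).exists
  have hGc : Continuous G := by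
    rw [Metric.continuous_iff']
    intro y e he
    obtain ⟨n, hn⟩ := hsmall e he
    have h1 : ∀ᶠ u in 𝓝 y, |p n u - p n y| < 1 := by
      have h2 : Filter.Tendsto (fun u => |p n u - p n y|) (𝓝 y) (𝓝 |p n y - p n y|) :=
        ((hp n).tendsto y |>.sub_const _).abs
      rw [sub_self, abs_zero] at h2
      exact h2.eventually_lt_const one_pos
    filter_upwards [h1] with u hu
    rw [abs_lt] at hu
    have h3 : Nr ⌊p n u⌋₊ ⌊p n y⌋₊ := by
      have a1 := Nat.floor_le (hpm n u).1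
      have a2 := Nat.lt_floor_add_one (p n u)
      have b1 := Nat.floor_le (hpm n y).1
      have b2 := Nat.lt_floor_add_one (p n y)
      constructor
      · have : (⌊p n u⌋₊ : ℝ) < ⌊p n y⌋₊ + 2 := by linarith
        have : ⌊p n u⌋₊ < ⌊p n y⌋₊ + 2 := by exact_mod_cast this
        omega
      · have : (⌊p n y⌋₊ : ℝ) < ⌊p n u⌋₊ + 2 := by linarith
        have : ⌊p n y⌋₊ < ⌊p n u⌋₊ + 2 := by exact_mod_cast this
        omega
    have h4 : dist (g n u) (g n y) ≤ ε n := hnear n _ _ (hfl n u) (hfl n y) h3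
    have h5 := hGd u n
    have h6 := hGd y n
    have h7 := dist_triangle4 (G u) (g n u) (g n y) (G y)
    rw [dist_comm (G u) (g n u)] at h7
    linarith
  refine ⟨Y, iY, hYc, hY1, hY2, G, hGc, ?_⟩
  · ext v
    constructor
    · rintro ⟨y, rfl⟩
      exact hGK y
    · intro hv
      have hcl : IsClosed (range G) := (isCompact_range hGc).isClosed
      rw [← hcl.closure_eq, Metric.mem_closure_iff]
      intro e he
      obtain ⟨n, hn⟩ := hsmall e he
      obtain ⟨i, hi, hiv⟩ := hdense v hv n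
      have h1 : (i : ℝ) ∈ range (p n) := by
        rw [hpr n]
        exact ⟨Nat.cast_nonneg i, by exact_mod_cast hi⟩
      obtain ⟨y, hy⟩ := h1
      have h2 : g n y = x n i := by
        rw [hg]
        simp only [hy, Nat.floor_natCast]
      refine ⟨G y, mem_range_self y, ?_⟩
      have h3 := hGd y n
      have h4 := dist_triangle v (x n i) (G y)
      have h5 : 0 ≤ η n := dist_nonneg.trans h3
      rw [h2] at h3
      linarith

end Pool.Agent.Lib.MP_40f35d_gt.H
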