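import Pool.Agent.Lib.MP_40f35d_gt.H.Engine
import Pool.Agent.Lib.MP_40f35d_gt.H.Thread
import Pool.Agent.Lib.MP_40f35d_gt.H.Asm
import Pool.Agent.Lib.MP_40f35d_gt.H.Tower

/-!
# The engine: bounded chains of visits make `K` weakly chainable
-/

set_option autoImplicit false

open Set Topology

namespace Pool.Agent.Lib.MP_40f35d_gt.H

theorem finite_words (B N : ℕ) : {τ : List ℕ | τ.length ≤ B ∧ ∀ i ∈ τ, i < N}.Finite := by
  refine ((List.finite_length_le (Fin N) B).image (List.map Fin.val)).subset ?_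
  rintro τ ⟨h1, h2⟩
  refine ⟨τ.pmap Fin.mk h2, ?_, ?_⟩
  · simpa using h1
  · rw [List.map_pmap]
    simp

/-- If every point of `K` is joined to `z` by a chain of `M` visits then `K` is weakly
chainable. -/
theorem engine {Y E : Type} [MetricSpace Y] [CompactSpace Y] [ConnectedSpace Y] [MetricSpace E]
    (hY : Chainable Y) (f : Y → E) (hf : Continuous f) (K : Set E) (hK : IsCompact K)
    (hKf : K ⊆ range f) (z : E) (hz : z ∈ K) (M : ℕ)
    (h : ∀ x ∈ K, ∃ a : ℕ → E, a 0 = z ∧ a M = x ∧ ∀ k < M, Vis f K (a k) (a (k + 1))) :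
    WC K := by
  classical
  obtain ⟨N, U, r, hUo, hUc, hUn, hUd, hUr⟩ := covers hY f hf (fun n => (1 / 2 : ℝ) ^ n / 2)
    (fun n => by positivity)
  -- chains of length `M + 1`
  have hch : ∀ x ∈ K, ∃ a : ℕ → E, a 0 = z ∧ a (M + 1) = x ∧
      ∀ k < M + 1, Vis f K (a k) (a (k + 1)) := by
    intro x hx
    obtain ⟨a, h0, h1, h2⟩ := h x hx
    refine ⟨fun j => if j ≤ M then a j else x, ?_, ?_, ?_⟩
    · simp [h0]
    · simp
    · intro j hj
      rcases Nat.lt_or_ge j M with hjk | hjk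
      · have e1 : j ≤ M := hjk.le
        have e2 : j + 1 ≤ M := hjk
        simp only [e1, e2, if_true]
        exact h2 j hjk
      · have e : j = M := by omega
        subst e
        have e2 : ¬ j + 1 ≤ j := by omega
        simp only [le_refl, e2, if_true, if_false]
        rw [h1]
        obtain ⟨y, rfl⟩ := hKf hx
        refine ⟨{y}, isPreconnected_singleton, ?_, ⟨y, rfl, rfl⟩, ⟨y, rfl, rfl⟩⟩
        rw [image_singleton]
        exact singleton_subset_iff.2 hx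
  have hOk : ∀ x ∈ K, ∀ n, ∃ τ, Ok f K z (M + 1) (U n) (N n) τ ∧ Ends f (U n) τ x := by
    intro x hx n
    obtain ⟨a, h0, h1, h2⟩ := hch x hx
    exact ok_base f K z (M + 1) (U n) (N n) (hUo n) (hUc n) (hUn n) (Nat.succ_pos M) x a h0 h1 h2
  -- compression
  choose Bd hBd using fun n => compress (M + 1) (N n)
  have hcomp' : ∀ (n : ℕ) (A : List ℕ), ∃ W : List ℕ, A ≠ [] → Seg (M + 1) A →
      (∀ i ∈ A, i < N n) → W.length ≤ Bd n ∧ Cmp (M + 1) A W := by
    intro n A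
    by_cases hA : A ≠ [] ∧ Seg (M + 1) A ∧ ∀ i ∈ A, i < N n
    · obtain ⟨W, hW⟩ := hBd n A hA.1 hA.2.1 hA.2.2
      exact ⟨W, fun _ _ _ => hW⟩
    · exact ⟨[], fun h1 h2 h3 => absurd ⟨h1, h2, h3⟩ hA⟩
  choose comp hcomp using hcomp'
  have hcompOk : ∀ (n : ℕ) (τ : List ℕ), Ok f K z (M + 1) (U n) (N n) τ →
      (comp n τ).length ≤ Bd n ∧ Cmp (M + 1) τ (comp n τ) ∧
      Ok f K z (M + 1) (U n) (N n) (comp n τ) ∧
      ∀ x, Ends f (U n) τ x → Ends f (U n) (comp n τ) x := by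
    intro n τ hτ
    obtain ⟨h1, h2⟩ := hcomp n τ hτ.ne hτ.seg (fun i hi => (hτ.lt i hi).1)
    obtain ⟨h3, h4⟩ := ok_cmp f K z (M + 1) (U n) (N n) (hUn n) τ (comp n τ) hτ h2
    exact ⟨h1, h2, h3, h4⟩
  set Ψ : ℕ → List ℕ → List ℕ := fun n τ => comp n (τ.map (r n)) with hΨ
  set G : ℕ → Set (List ℕ) := fun n =>
    {τ | τ.length ≤ Bd n ∧ Ok f K z (M + 1) (U n) (N n) τ} with hG
  have hGfin : ∀ n, (G n).Finite := by
    intro n
    refine (finite_words (Bd n) (N n)).subset ?_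
    rintro τ ⟨h1, h2⟩
    exact ⟨h1, fun i hi => (h2.lt i hi).1⟩
  have hstep : ∀ n τ, Ok f K z (M + 1) (U (n + 1)) (N (n + 1)) τ →
      Ψ n τ ∈ G n ∧ Cmp (M + 1) (τ.map (r n)) (Ψ n τ) ∧
      ∀ x, Ends f (U (n + 1)) τ x → Ends f (U n) (Ψ n τ) x := by
    intro n τ hτ
    obtain ⟨h1, h2⟩ := ok_map f K z (M + 1) (U n) (U (n + 1)) (N n) (N (n + 1)) (r n)
      (hUn (n + 1)) (hUn n) (hUr n) τ hτ
    obtain ⟨h3, h4, h5, h6⟩ := hcompOk n _ h1
    exact ⟨⟨h3, h5⟩, h4, fun x hx => h6 x (h2 x hx)⟩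
  have hthr : ∀ x ∈ K, ∃ τ : ℕ → List ℕ, ∀ n, (τ n ∈ G n ∧ Ends f (U n) (τ n) x) ∧
      Ψ n (τ (n + 1)) = τ n := by
    intro x hx
    refine thread (fun n => {τ | τ ∈ G n ∧ Ends f (U n) τ x})
      (fun n => (hGfin n).subset fun τ hτ => hτ.1) ?_ Ψ ?_
    · intro n
      obtain ⟨τ, h1, h2⟩ := hOk x hx n
      obtain ⟨h3, h4, h5, h6⟩ := hcompOk n τ h1
      exact ⟨comp n τ, ⟨h3, h5⟩, h6 x h2⟩
    · rintro n τ ⟨h1, h2⟩
      obtain ⟨h3, h4, h5⟩ := hstep n τ h1.2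
      exact ⟨h3, h5 x h2⟩
  set Th : Set (ℕ → List ℕ) := {τ | ∀ n, τ n ∈ G n ∧ Ψ n (τ (n + 1)) = τ n} with hTh
  set A : ℕ → Set (List ℕ) := fun n => (fun τ : ℕ → List ℕ => τ n) '' Th with hA
  have hAG : ∀ n, A n ⊆ G n := by
    rintro n _ ⟨τ, hτ, rfl⟩
    exact (hτ n).1
  have hAne : ∀ n, (A n).Nonempty := by
    intro n
    obtain ⟨τ, hτ⟩ := hthr z hz
    exact ⟨τ n, τ, fun m => ⟨(hτ m).1.1, (hτ m).2⟩, rfl⟩
  have hAΨ : ∀ n, Ψ n '' A (n + 1) = A n := by
    intro n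
    ext σ
    constructor
    · rintro ⟨_, ⟨τ, hτ, rfl⟩, rfl⟩
      exact ⟨τ, hτ, (hτ n).2.symm⟩
    · rintro ⟨τ, hτ, rfl⟩
      exact ⟨τ (n + 1), ⟨τ, hτ, rfl⟩, (hτ n).2⟩
  obtain ⟨O, c, hO, hOc, hc⟩ := ordered A (fun n => (hGfin n).subset (hAG n)) (hAne 0) Ψ hAΨ
  have hOne : ∀ n, O n ≠ [] := by
    intro n hn
    obtain ⟨τ, hτ⟩ := hAne n
    have := (hO n τ).2 hτ
    rw [hn] at this
    exact absurd this List.not_mem_nil
  set L : ℕ → List ℕ := fun n => (O n).flatMap fun σ => σ ++ σ.reverse with hL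
  have hOk' : ∀ n, ∀ τ ∈ O n, Ok f K z (M + 1) (U n) (N n) τ := fun n τ hτ =>
    (hAG n ((hO n τ).1 hτ)).2
  have hmem : ∀ n i, i ∈ L n → i < N n ∧ ∃ y ∈ U n i, f y ∈ K := by
    intro n i hi
    rw [hL] at hi
    simp only [List.mem_flatMap, List.mem_append, List.mem_reverse, or_self] at hi
    obtain ⟨τ, hτ, hiτ⟩ := hi
    exact (hOk' n τ hτ).lt i hiτ
  have hrd : ∀ n, Rd (L n) ((L (n + 1)).map (r n)) 0 ((L n).length - 1) := by
    intro n
    have h1 : L (n + 1) = ((O n).flatMap (c n)).flatMap fun σ => σ ++ σ.reverse := by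
      rw [hL]
      simp only [hOc n]
    rw [h1]
    refine rd_long (r n) (O n) (hOne n) (c n) ?_
    intro τ hτ
    obtain ⟨h2, h3⟩ := hc n τ ((hO n τ).1 hτ)
    refine ⟨(hOk' n τ hτ).ne, h2, fun τ' hτ' => ?_⟩
    obtain ⟨h4, h5⟩ := h3 τ' hτ'
    have h6 := (hAG (n + 1) h5).2
    refine ⟨h6.ne, ?_⟩
    have h7 := (hstep n τ' h6).2.1.rd
    rw [h4] at h7
    exact h7
  choose s hs0 hsl hsm hsn using fun n => (hrd n).fn
  have hlen : ∀ n, 2 ≤ (L n).length := by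
    intro n
    obtain ⟨σ, O', hσ⟩ : ∃ σ O', O n = σ :: O' := List.exists_cons_of_ne_nil (hOne n)
    have h1 : σ ≠ [] := (hOk' n σ (by rw [hσ]; exact List.mem_cons_self)).ne
    have h2 : 1 ≤ σ.length := List.length_pos_iff.2 h1
    have h3 : L n = (σ ++ σ.reverse) ++ O'.flatMap fun σ => σ ++ σ.reverse := by
      rw [hL]
      simp only [hσ, List.flatMap_cons]
    rw [h3]
    simp only [List.length_append, List.length_reverse]
    omega
  -- the points
  have hpt' : ∀ n i, ∃ p : E, (∃ y ∈ U n i, f y ∈ K) → p ∈ K ∧ ∃ y ∈ U n i, f y = p := by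
    intro n i
    by_cases hi : ∃ y ∈ U n i, f y ∈ K
    · obtain ⟨y, hy, hy'⟩ := hi
      exact ⟨f y, fun _ => ⟨hy', y, hy, rfl⟩⟩
    · exact ⟨z, fun h => absurd h hi⟩
  choose pt hpt using hpt'
  set lab : ℕ → ℕ → ℕ := fun n i => ((L n)[i]?).getD 0 with hlab
  have hlab' : ∀ n i, i < (L n).length → (L n)[i]? = some (lab n i) := by
    intro n i hi
    rw [hlab]
    simp [hi]
  have hlabm : ∀ n i, i < (L n).length → lab n i ∈ L n := fun n i hi =>
    List.mem_of_getElem? (hlab' n i hi)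
  have hsmall : ∀ n : ℕ, (1 / 2 : ℝ) ^ n / 2 ≤ (1 / 2 : ℝ) ^ n := by
    intro n
    have : (0 : ℝ) ≤ (1 / 2 : ℝ) ^ n := by positivity
    linarith
  refine tower K hK (fun n => (1 / 2 : ℝ) ^ n) summable_geometric_two (fun n => (L n).length - 1)
    (fun n => by have := hlen n; omega) (fun n i => pt n (lab n i)) ?_ s ?_ ?_ hs0 ?_ ?_ ?_ ?_
  · intro n i hi
    have h1 := hlen n
    exact (hpt n _ (hmem n _ (hlabm n i (by omega))).2).1
  · intro n i hi
    have h1 := hlen (n + 1)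
    have h2 := (hsm n i (by rw [List.length_map]; omega)).1
    omega
  · intro n i hi
    exact hsn n i (by rw [List.length_map]; omega)
  · intro n
    have := hsl n
    rw [List.length_map] at this
    exact this
  · intro n i hi
    have hchn : (L n).IsChain (Adj f (U n)) := by
      refine isChain_long _ ?_ (O n) ?_ ?_
      · rintro i j ⟨a, ha, b, hb, hab⟩
        exact ⟨b, hb, a, ha, hab.symm⟩
      · intro τ hτ
        refine ⟨(hOk' n τ hτ).ne, (hOk' n τ hτ).chain, fun i hi => ?_⟩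
        obtain ⟨-, y, hy, -⟩ := (hOk' n τ hτ).lt i hi
        exact ⟨y, hy, y, hy, rfl⟩
      · intro τ hτ σ hσ i j hi hj
        obtain ⟨i', h1, p, hp, hpz⟩ := (hOk' n τ hτ).head
        obtain ⟨j', h2, q, hq, hqz⟩ := (hOk' n σ hσ).head
        rw [hi] at h1
        rw [hj] at h2
        cases h1
        cases h2
        exact ⟨p, hp, q, hq, hpz.trans hqz.symm⟩
    have hi1 : i + 1 < (L n).length := by omega
    have hi0 : i < (L n).length := by omega
    have h3 := List.isChain_iff_getElem.1 hchn i hi1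
    have e0 : (L n)[i] = lab n i := by
      have := hlab' n i hi0
      rw [List.getElem?_eq_getElem hi0] at this
      exact Option.some.inj this
    have e1 : (L n)[i + 1] = lab n (i + 1) := by
      have := hlab' n (i + 1) hi1
      rw [List.getElem?_eq_getElem hi1] at this
      exact Option.some.inj this
    rw [e0, e1] at h3
    obtain ⟨a, ha, b, hb, hab⟩ := h3
    have m0 := hmem n _ (hlabm n i hi0)
    have m1 := hmem n _ (hlabm n (i + 1) hi1)
    obtain ⟨-, y, hy, hy'⟩ := hpt n _ m0.2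
    obtain ⟨-, w, hw, hw'⟩ := hpt n _ m1.2
    have d1 := hUd n _ m0.1 y hy a ha
    have d2 := hUd n _ m1.1 b hb w hw
    rw [hy'] at d1
    rw [hw', ← hab] at d2
    have d3 := dist_triangle (pt n (lab n i)) (f a) (pt n (lab n (i + 1)))
    linarith
  · intro n i hi
    have h1 := hlen (n + 1)
    have hi1 : i < (L (n + 1)).length := by omega
    obtain ⟨h2, h3⟩ := hsm n i (by rw [List.length_map]; omega)
    rw [List.getElem?_map, hlab' (n + 1) i hi1, hlab' n _ h2] at h3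
    simp only [Option.map_some, Option.some.injEq] at h3
    have m0 := hmem (n + 1) _ (hlabm (n + 1) i hi1)
    have m1 := hmem n _ (hlabm n _ h2)
    obtain ⟨-, y, hy, hy'⟩ := hpt (n + 1) _ m0.2
    obtain ⟨-, w, hw, hw'⟩ := hpt n _ m1.2
    have hy2 : y ∈ U n (lab n (s n i)) := by
      rw [h3]
      exact (hUr n _ m0.1).2 hy
    have d1 := hUd n _ m1.1 y hy2 w hw
    rw [hy', hw'] at d1
    exact d1.trans (hsmall n)
  · intro x hx n
    obtain ⟨τ, hτ⟩ := hthr x hx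
    obtain ⟨⟨h1, i, hi, q, hq, hqx⟩, -⟩ := hτ n
    have hτA : τ n ∈ A n := ⟨τ, fun m => ⟨(hτ m).1.1, (hτ m).2⟩, rfl⟩
    have hiτ : i ∈ τ n := List.mem_of_getLast? hi
    have hiL : i ∈ L n := by
      rw [hL]
      simp only [List.mem_flatMap, List.mem_append, List.mem_reverse, or_self]
      exact ⟨τ n, (hO n _).2 hτA, hiτ⟩
    obtain ⟨k, hk, hki⟩ := List.mem_iff_getElem.1 hiL
    refine ⟨k, by omega, ?_⟩
    have e0 : lab n k = i := by
      have := hlab' n k hk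
      rw [List.getElem?_eq_getElem hk, hki] at this
      exact (Option.some.inj this).symm
    have m0 := hmem n i hiL
    obtain ⟨-, y, hy, hy'⟩ := hpt n i m0.2
    have d1 := hUd n i m0.1 q hq y hy
    rw [hqx, hy', ← e0] at d1
    exact d1.trans (hsmall n)

end Pool.Agent.Lib.MP_40f35d_gt.H
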