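import Pool.Agent.Lib.MP_40f35d_gt.Bump
import Pool.Agent.Lib.MP_40f35d_gt.Chain

/-!
# MP_40f35d_gt, project H: definitions
A subcontinuum which is not weakly chainable has many disjoint exits.
-/

set_option autoImplicit false

open Set Topology

namespace Pool.Agent.Lib.MP_40f35d_gt.H

/-- The set `K` is a continuous image of a chainable continuum. -/
def WC {E : Type} [MetricSpace E] (K : Set E) : Prop :=
  ∃ (Y : Type) (_ : MetricSpace Y), CompactSpace Y ∧ ConnectedSpace Y ∧ Chainable Y ∧
    ∃ f : Y → E, Continuous f ∧ range f = K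

/-- The points `a` and `b` lie in the image, contained in `K`, of one connected set. -/
def Vis {Y E : Type} [TopologicalSpace Y] (f : Y → E) (K : Set E) (a b : E) : Prop :=
  ∃ C : Set Y, IsPreconnected C ∧ f '' C ⊆ K ∧ a ∈ f '' C ∧ b ∈ f '' C

/-- Two natural numbers which differ by at most one. -/
def Nr (i j : ℕ) : Prop := i ≤ j + 1 ∧ j ≤ i + 1

/-- `Rd W A p q`: the word `A` can be read along the word `W`, starting at the position `p` and
stopping at the position `q`, where every step changes the position by at most one. -/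
inductive Rd (W : List ℕ) : List ℕ → ℕ → ℕ → Prop
  | one (x p : ℕ) : W[p]? = some x → Rd W [x] p p
  | cons (x : ℕ) (A : List ℕ) (p p' q : ℕ) : W[p]? = some x → Nr p p' → Rd W A p' q →
      Rd W (x :: A) p q

/-- A near path: consecutive letters differ by at most one. -/
def Near (A : List ℕ) : Prop := A.IsChain Nr

/-- The word `A` is a concatenation of at most `k` nonempty near paths. -/
def Seg (k : ℕ) (A : List ℕ) : Prop :=
  ∃ l : List (List ℕ), l.length ≤ k ∧ (∀ B ∈ l, B ≠ [] ∧ Near B) ∧ l.flatten = A

/-- `W` is a compression of the word `A`. -/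
structure Cmp (k : ℕ) (A W : List ℕ) : Prop where
  ne : W ≠ []
  seg : Seg k W
  sub : ∀ i ∈ W, i ∈ A
  head : W.head? = A.head?
  last : W.getLast? = A.getLast?
  rd : Rd W A 0 (W.length - 1)
  adj : ∀ R : ℕ → ℕ → Prop, (∀ i ∈ A, ∀ j ∈ A, Nr i j → R i j) → A.IsChain R → W.IsChain R

end Pool.Agent.Lib.MP_40f35d_gt.H
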