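import Pool.Agent.Lib.MP_40f35d_gt.H.Base

/-!
# Chains of visits have bounded length
-/

set_option autoImplicit false

open Set Topology

namespace Pool.Agent.Lib.MP_40f35d_gt.H

section

variable {E : Type} [MetricSpace E] (𝒯 : Set (Set E))

/-- The union of the visits which meet `S`. -/
def Step (S : Set E) : Set E := {b | ∃ a ∈ S, ∃ T ∈ 𝒯, a ∈ T ∧ b ∈ T}

/-- The points which are joined to `z` by a chain of at most `k` visits. -/
def Lev (z : E) : ℕ → Set E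
  | 0 => {z}
  | k + 1 => Step 𝒯 (Lev z k)

theorem classes_step_mono (S S' : Set E) (h : S ⊆ S') : Step 𝒯 S ⊆ Step 𝒯 S' := by
  rintro b ⟨a, ha, T, hT, haT, hbT⟩
  exact ⟨a, h ha, T, hT, haT, hbT⟩

/-- The class of a point. -/
def ClassesA (x : E) : Set E :=
  {y | Relation.ReflTransGen (fun a b => ∃ T ∈ 𝒯, a ∈ T ∧ b ∈ T) x y}

theorem classes_self (x : E) : x ∈ ClassesA 𝒯 x := Relation.ReflTransGen.refl

theorem classes_symm (x y : E) (h : y ∈ ClassesA 𝒯 x) : x ∈ ClassesA 𝒯 y := by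
  have h1 : Std.Symm (fun a b : E => ∃ T ∈ 𝒯, a ∈ T ∧ b ∈ T) :=
    ⟨fun a b ⟨T, hT, ha, hb⟩ => ⟨T, hT, hb, ha⟩⟩
  exact Relation.ReflTransGen.stdSymm.symm _ _ h

theorem classes_eq (x y : E) (h : y ∈ ClassesA 𝒯 x) : ClassesA 𝒯 y = ClassesA 𝒯 x := by
  ext w
  exact ⟨fun hw => Relation.ReflTransGen.trans h hw,
    fun hw => Relation.ReflTransGen.trans (classes_symm 𝒯 x y h) hw⟩

theorem classes_lev (x y : E) : y ∈ ClassesA 𝒯 x ↔ ∃ k, y ∈ Lev 𝒯 x k := by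
  constructor
  · intro h
    induction h with
    | refl => exact ⟨0, rfl⟩
    | tail _ h ih =>
      obtain ⟨k, hk⟩ := ih
      exact ⟨k + 1, _, hk, h⟩
  · rintro ⟨k, hk⟩
    induction k generalizing y with
    | zero =>
      have : y = x := hk
      rw [this]
      exact classes_self 𝒯 x
    | succ k ih =>
      obtain ⟨a, ha, h⟩ := hk
      exact Relation.ReflTransGen.tail (ih a ha) h

/-- A closed set all of whose points are joined to finitely many points by chains of visits of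
bounded length. -/
structure Small (K V : Set E) : Prop where
  closed : IsClosed V
  lev : ∀ z ∈ K, ∃ k1, ∀ v ∈ V, ∀ k, v ∈ Lev 𝒯 z k → v ∈ Lev 𝒯 z k1
  fin : (ClassesA 𝒯 '' V).Finite

variable (K : Set E) (hK : IsCompact K) (h𝒯 : ∀ T ∈ 𝒯, IsConnected T ∧ IsCompact T ∧ T ⊆ K)
  (hcov : ∀ x ∈ K, ∃ T ∈ 𝒯, x ∈ T)
  (hcl : IsClosed {p : E × E | ∃ T ∈ 𝒯, p.1 ∈ T ∧ p.2 ∈ T})
include hK h𝒯 hcov hcl

theorem classes_step (S : Set E) (hS : IsCompact S) (hS' : IsConnected S) (hSK : S ⊆ K) :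
    IsCompact (Step 𝒯 S) ∧ IsConnected (Step 𝒯 S) ∧ Step 𝒯 S ⊆ K ∧ S ⊆ Step 𝒯 S := by
  have hsub : Step 𝒯 S ⊆ K := by
    rintro b ⟨a, -, T, hT, -, hb⟩
    exact (h𝒯 T hT).2.2 hb
  have hself : S ⊆ Step 𝒯 S := by
    intro a ha
    obtain ⟨T, hT, haT⟩ := hcov a (hSK ha)
    exact ⟨a, ha, T, hT, haT, haT⟩
  refine ⟨?_, ?_, hsub, hself⟩
  · have h1 : IsCompact ((S ×ˢ K) ∩ {p : E × E | ∃ T ∈ 𝒯, p.1 ∈ T ∧ p.2 ∈ T}) :=
      (hS.prod hK).inter_right hcl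
    have h2 : Step 𝒯 S =
        Prod.snd '' ((S ×ˢ K) ∩ {p : E × E | ∃ T ∈ 𝒯, p.1 ∈ T ∧ p.2 ∈ T}) := by
      ext b
      constructor
      · rintro ⟨a, ha, T, hT, haT, hbT⟩
        exact ⟨(a, b), ⟨⟨ha, (h𝒯 T hT).2.2 hbT⟩, T, hT, haT, hbT⟩, rfl⟩
      · rintro ⟨⟨a, b'⟩, ⟨⟨ha, -⟩, T, hT, haT, hbT⟩, rfl⟩
        exact ⟨a, ha, T, hT, haT, hbT⟩
    rw [h2]
    exact h1.image continuous_snd
  · obtain ⟨x, hx⟩ := hS'.nonempty
    refine ⟨⟨x, hself hx⟩, isPreconnected_of_forall x ?_⟩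
    rintro b ⟨a, ha, T, hT, haT, hbT⟩
    refine ⟨S ∪ T, ?_, Or.inl hx, Or.inr hbT,
      hS'.isPreconnected.union a ha haT (h𝒯 T hT).1.isPreconnected⟩
    rintro c (hc | hc)
    · exact hself hc
    · exact ⟨a, ha, T, hT, haT, hc⟩

theorem lev_compact (z : E) (hz : z ∈ K) (k : ℕ) :
    IsCompact (Lev 𝒯 z k) ∧ IsConnected (Lev 𝒯 z k) ∧ Lev 𝒯 z k ⊆ K ∧
      Lev 𝒯 z k ⊆ Lev 𝒯 z (k + 1) ∧ z ∈ Lev 𝒯 z k := by
  induction k with
  | zero =>
    have h1 : IsCompact (Lev 𝒯 z 0) := isCompact_singleton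
    have h2 : IsConnected (Lev 𝒯 z 0) := isConnected_singleton
    have h3 : Lev 𝒯 z 0 ⊆ K := singleton_subset_iff.2 hz
    exact ⟨h1, h2, h3, (classes_step 𝒯 K hK h𝒯 hcov hcl _ h1 h2 h3).2.2.2, rfl⟩
  | succ k ih =>
    obtain ⟨h1, h2, h3, h4⟩ := classes_step 𝒯 K hK h𝒯 hcov hcl _ ih.1 ih.2.1 ih.2.2.1
    exact ⟨h1, h2, h3, classes_step_mono 𝒯 _ _ ih.2.2.2.1, h4 ih.2.2.2.2⟩

theorem classes_mono (z : E) (hz : z ∈ K) (j k : ℕ) (h : j ≤ k) :
    Lev 𝒯 z j ⊆ Lev 𝒯 z k := by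
  induction h with
  | refl => exact Subset.rfl
  | step _ ih => exact ih.trans (lev_compact 𝒯 K hK h𝒯 hcov hcl z hz _).2.2.2.1

/-- The visits of a shortest chain. -/
theorem lev_chain (z : E) (hz : z ∈ K) (k : ℕ) (x : E) (hx : x ∈ Lev 𝒯 z (k + 1))
    (hx' : x ∉ Lev 𝒯 z k) :
    ∃ (a : ℕ → E) (T : ℕ → Set E), a 0 = z ∧ a (k + 1) = x ∧
      (∀ j, j ≤ k → T j ∈ 𝒯 ∧ a j ∈ T j ∧ a (j + 1) ∈ T j ∧ T j ⊆ Lev 𝒯 z (j + 1)) ∧
      (∀ j, 1 ≤ j → j ≤ k → Disjoint (T j) (Lev 𝒯 z (j - 1))) ∧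
      ∀ i j, i + 2 ≤ j → j ≤ k → Disjoint (T i) (T j) := by
  have key : ∀ (k : ℕ) (x : E), x ∈ Lev 𝒯 z (k + 1) →
      ∃ (a : ℕ → E) (T : ℕ → Set E), a 0 = z ∧ a (k + 1) = x ∧
        (∀ j, j ≤ k → T j ∈ 𝒯 ∧ a j ∈ T j ∧ a (j + 1) ∈ T j ∧ a j ∈ Lev 𝒯 z j) := by
    intro k
    induction k with
    | zero =>
      rintro x ⟨a, ha, T, hT, haT, hxT⟩
      have haz : a = z := ha
      subst haz
      refine ⟨fun n => if n = 0 then a else x, fun _ => T, by simp, by simp, ?_⟩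
      intro j hj
      obtain rfl : j = 0 := by omega
      exact ⟨hT, by simpa using haT, by simpa using hxT, by simpa using ha⟩
    | succ k ih =>
      rintro x ⟨b, hb, T, hT, hbT, hxT⟩
      obtain ⟨a, T', h0, h1, h2⟩ := ih b hb
      refine ⟨fun n => if n ≤ k + 1 then a n else x, fun n => if n ≤ k then T' n else T,
        by simpa using h0, by simp, ?_⟩
      intro j hj
      by_cases hjk : j ≤ k
      · obtain ⟨h3, h4, h5, h6⟩ := h2 j hjk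
        have e1 : j ≤ k + 1 := by omega
        have e2 : j + 1 ≤ k + 1 := by omega
        simp only [hjk, e1, if_true]
        simp only [Nat.add_le_add_iff_right, hjk, if_true]
        exact ⟨h3, h4, h5, h6⟩
      · obtain rfl : j = k + 1 := by omega
        have e1 : ¬ (k + 1 ≤ k) := by omega
        have e2 : ¬ (k + 1 + 1 ≤ k + 1) := by omega
        simp only [e1, e2, if_false, le_refl, if_true, h1]
        exact ⟨hT, hbT, hxT, hb⟩
  obtain ⟨a, T, h0, h1, h2⟩ := key k x hx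
  have hstep : ∀ j, j ≤ k → ∀ m, (T j ∩ Lev 𝒯 z m).Nonempty → T j ⊆ Lev 𝒯 z (m + 1) := by
    rintro j hj m ⟨c, hc, hc'⟩ b hb
    exact ⟨c, hc', T j, (h2 j hj).1, hc, hb⟩
  have hnot : ∀ j, 1 ≤ j → j ≤ k + 1 → a j ∉ Lev 𝒯 z (j - 1) := by
    intro j hj hjk hcon
    have : ∀ m, j + m ≤ k + 1 → a (j + m) ∈ Lev 𝒯 z (j + m - 1) := by
      intro m
      induction m with
      | zero => intro _; exact hcon
      | succ m ih =>
        intro hm
        have h3 := ih (by omega)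
        have h4 := h2 (j + m) (by omega)
        have h5 := hstep (j + m) (by omega) _ ⟨a (j + m), h4.2.1, h3⟩ h4.2.2.1
        have e : j + (m + 1) - 1 = j + m - 1 + 1 := by omega
        rw [e]
        exact h5
    have h3 := this (k + 1 - j) (by omega)
    have e : j + (k + 1 - j) = k + 1 := by omega
    rw [e, h1] at h3
    exact hx' h3
  have hsub : ∀ j, j ≤ k → T j ⊆ Lev 𝒯 z (j + 1) := fun j hj =>
    hstep j hj j ⟨a j, (h2 j hj).2.1, (h2 j hj).2.2.2⟩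
  have hdis : ∀ j, 1 ≤ j → j ≤ k → Disjoint (T j) (Lev 𝒯 z (j - 1)) := by
    intro j hj hjk
    rw [Set.disjoint_iff_inter_eq_empty, ← Set.not_nonempty_iff_eq_empty]
    intro hne
    have h3 := hstep j hjk _ hne (h2 j hjk).2.2.1
    have e : j - 1 + 1 = j + 1 - 1 := by omega
    rw [e] at h3
    exact hnot (j + 1) (by omega) (by omega) h3
  refine ⟨a, T, h0, h1, fun j hj => ⟨(h2 j hj).1, (h2 j hj).2.1, (h2 j hj).2.2.1, hsub j hj⟩,
    hdis, ?_⟩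
  intro i j hij hj
  refine Set.disjoint_of_subset_left ((hsub i (by omega)).trans
    (classes_mono 𝒯 K hK h𝒯 hcov hcl z hz (i + 1) (j - 1) (by omega)))
    (hdis j (by omega) hj).symm

theorem classes_stay (z : E) (M : ℕ) (h : Lev 𝒯 z (M + 1) = Lev 𝒯 z M) (k : ℕ) (hk : M ≤ k) :
    Lev 𝒯 z k = Lev 𝒯 z M := by
  obtain ⟨n, rfl⟩ := Nat.exists_eq_add_of_le hk
  clear hk
  induction n with
  | zero => rfl
  | succ n ih =>
    have h1 : Lev 𝒯 z (M + (n + 1)) = Step 𝒯 (Lev 𝒯 z (M + n)) := rfl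
    rw [h1, ih]
    exact h

theorem lev_add (z u v : E) (n m : ℕ) (hu : u ∈ Lev 𝒯 z n) (hv : v ∈ Lev 𝒯 u m) :
    v ∈ Lev 𝒯 z (n + m) := by
  induction m generalizing v with
  | zero =>
    have : v = u := hv
    rw [this]
    exact hu
  | succ m ih =>
    obtain ⟨a, ha, h⟩ := hv
    exact ⟨a, ih a ha, h⟩

theorem small_of_chain (V F : Set E) (hV : IsClosed V) (hF : F.Finite) (M : ℕ)
    (h : ∀ v ∈ V, ∃ u ∈ F, v ∈ Lev 𝒯 u M) : Small 𝒯 K V := by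
  refine ⟨hV, ?_, ?_⟩
  · intro z hz
    have : ∀ v : E, ∃ n, ∀ k, v ∈ Lev 𝒯 z k → v ∈ Lev 𝒯 z n := by
      intro v
      by_cases h : ∃ n, v ∈ Lev 𝒯 z n
      · obtain ⟨n, hn⟩ := h
        exact ⟨n, fun _ _ => hn⟩
      · exact ⟨0, fun k hk => absurd ⟨k, hk⟩ h⟩
    choose n hn using this
    obtain ⟨m, hm⟩ := (hF.image n).bddAbove
    refine ⟨m + M, fun v hv k hk => ?_⟩
    obtain ⟨u, hu, huv⟩ := h v hv
    have h1 : v ∈ ClassesA 𝒯 z := (classes_lev 𝒯 z v).2 ⟨k, hk⟩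
    have h2 : v ∈ ClassesA 𝒯 u := (classes_lev 𝒯 u v).2 ⟨M, huv⟩
    have h3 : u ∈ ClassesA 𝒯 z := by
      rw [← classes_eq 𝒯 z v h1]
      exact classes_symm 𝒯 u v h2
    obtain ⟨j, hj⟩ := (classes_lev 𝒯 z u).1 h3
    have h4 := hn u j hj
    exact lev_add 𝒯 K hK h𝒯 hcov hcl z u v m M
      (classes_mono 𝒯 K hK h𝒯 hcov hcl z hz _ _ (hm ⟨u, hu, rfl⟩) h4) huv
  · refine (hF.image (ClassesA 𝒯)).subset ?_
    rintro _ ⟨v, hv, rfl⟩
    obtain ⟨u, hu, huv⟩ := h v hv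
    exact ⟨u, hu, (classes_eq 𝒯 u v ((classes_lev 𝒯 u v).2 ⟨M, huv⟩)).symm⟩

variable (V : Set E) (hV : Small 𝒯 K V) (l : ℕ) (hl : 1 ≤ l)
  (hno : ¬ ∃ (B : Set E) (T : Fin l → Set E), IsCompact B ∧ IsConnected B ∧ B ⊆ K \ V ∧
    (∀ i, T i ∈ 𝒯 ∧ Disjoint (T i) V ∧ (T i ∩ B).Nonempty) ∧
    ∀ i j, i ≠ j → Disjoint (T i) (T j))
include hV hl hno

/-- The levels of a class become stationary. -/
theorem lev_stop (z : E) (hz : z ∈ K) :
    ∃ M, ∀ k, M ≤ k → Lev 𝒯 z k = Lev 𝒯 z M := by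
  by_contra hcon
  push Not at hcon
  have hne : ∀ M, Lev 𝒯 z (M + 1) ≠ Lev 𝒯 z M := by
    intro M h
    obtain ⟨k, hk, hk'⟩ := hcon M
    exact hk' (classes_stay 𝒯 K hK h𝒯 hcov hcl z M h k hk)
  have hmono := classes_mono 𝒯 K hK h𝒯 hcov hcl z hz
  -- the points of `V` in the class
  obtain ⟨k1, hk1⟩ := hV.lev z hz
  obtain ⟨x, hx, hx'⟩ : ∃ x, x ∈ Lev 𝒯 z (k1 + 2 * l + 1) ∧ x ∉ Lev 𝒯 z (k1 + 2 * l) := by
    by_contra h
    push Not at h
    exact hne (k1 + 2 * l) (Subset.antisymm h (hmono _ _ (by omega)))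
  obtain ⟨a, T, h0, h1, h2, h3, h4⟩ := lev_chain 𝒯 K hK h𝒯 hcov hcl z hz _ x hx hx'
  have hTV : ∀ j, k1 + 1 ≤ j → j ≤ k1 + 2 * l → Disjoint (T j) V := by
    intro j hj hj'
    rw [Set.disjoint_left]
    intro v hv hvV
    have h5 := hk1 v hvV (j + 1) ((h2 j hj').2.2.2 hv)
    exact Set.disjoint_left.1 (h3 j (by omega) hj') hv (hmono _ _ (by omega) h5)
  refine hno ⟨⋃ j ∈ Set.Icc (k1 + 1) (k1 + 2 * l), T j, fun i => T (k1 + 1 + 2 * i.1),
    ?_, ?_, ?_, ?_, ?_⟩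
  · exact (Set.finite_Icc _ _).isCompact_biUnion fun j hj => (h𝒯 _ (h2 j hj.2).1).2.1
  · refine IsConnected.biUnion_of_chain ⟨k1 + 1, by constructor <;> omega⟩ Set.ordConnected_Icc
      (fun j hj => (h𝒯 _ (h2 j hj.2).1).1) ?_
    intro j hj hj'
    exact ⟨a (j + 1), (h2 j hj.2).2.2.1, (h2 (j + 1) hj'.2).2.1⟩
  · intro y hy
    simp only [Set.mem_iUnion] at hy
    obtain ⟨j, hj, hy⟩ := hy
    exact ⟨(h𝒯 _ (h2 j hj.2).1).2.2 hy, fun hyV => Set.disjoint_left.1 (hTV j hj.1 hj.2) hy hyV⟩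
  · intro i
    have hi := i.2
    have e1 : k1 + 1 ≤ k1 + 1 + 2 * i.1 := by omega
    have e2 : k1 + 1 + 2 * i.1 ≤ k1 + 2 * l := by omega
    refine ⟨(h2 _ e2).1, hTV _ e1 e2, a (k1 + 1 + 2 * i.1), (h2 _ e2).2.1, ?_⟩
    simp only [Set.mem_iUnion]
    exact ⟨_, ⟨e1, e2⟩, (h2 _ e2).2.1⟩
  · intro i j hij
    have hi := i.2
    have hj := j.2
    have hij' : i.1 ≠ j.1 := fun h => hij (Fin.ext h)
    rcases Nat.lt_or_gt_of_ne hij' with h | h
    · exact h4 _ _ (by omega) (by omega)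
    · exact (h4 _ _ (by omega) (by omega)).symm

theorem classes_closed (x : E) (hx : x ∈ K) :
    IsCompact (ClassesA 𝒯 x) ∧ IsConnected (ClassesA 𝒯 x) ∧ ClassesA 𝒯 x ⊆ K ∧
      ∃ M, ClassesA 𝒯 x = Lev 𝒯 x M := by
  obtain ⟨M, hM⟩ := lev_stop 𝒯 K hK h𝒯 hcov hcl V hV l hl hno x hx
  have h : ClassesA 𝒯 x = Lev 𝒯 x M := by
    ext y
    rw [classes_lev]
    constructor
    · rintro ⟨k, hk⟩
      rcases le_total M k with h | h
      · rw [← hM k h]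
        exact hk
      · exact classes_mono 𝒯 K hK h𝒯 hcov hcl x hx k M h hk
    · exact fun hy => ⟨M, hy⟩
  obtain ⟨h1, h2, h3, -⟩ := lev_compact 𝒯 K hK h𝒯 hcov hcl x hx M
  rw [h]
  exact ⟨h1, h2, h3, M, rfl⟩

/-- A connected set which meets only finitely many classes lies in one of them. -/
theorem classes_fin (B : Set E) (hB : IsPreconnected B) (hBK : B ⊆ K)
    (hf : (ClassesA 𝒯 '' B).Finite) (x : E) (hx : x ∈ B) : B ⊆ ClassesA 𝒯 x := by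
  have hc := classes_closed 𝒯 K hK h𝒯 hcov hcl V hV l hl hno
  set F : Set (Set E) := {C ∈ ClassesA 𝒯 '' B | C ≠ ClassesA 𝒯 x} with hF
  have hFf : F.Finite := hf.subset (fun C hC => hC.1)
  have hFc : IsClosed (⋃₀ F) := by
    rw [Set.sUnion_eq_biUnion]
    refine hFf.isClosed_biUnion ?_
    rintro C ⟨⟨y, hy, rfl⟩, -⟩
    exact (hc y (hBK hy)).1.isClosed
  intro y hy
  by_contra hyx
  have hsub : B ⊆ ClassesA 𝒯 x ∪ ⋃₀ F := by
    intro w hw
    by_cases h : ClassesA 𝒯 w = ClassesA 𝒯 x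
    · left
      rw [← h]
      exact classes_self 𝒯 w
    · right
      exact ⟨ClassesA 𝒯 w, ⟨⟨w, hw, rfl⟩, h⟩, classes_self 𝒯 w⟩
  have hyF : y ∈ ⋃₀ F := by
    rcases hsub hy with h | h
    · exact absurd h hyx
    · exact h
  obtain ⟨w, -, hw1, C, ⟨⟨u, hu, rfl⟩, hCx⟩, hw2⟩ := isPreconnected_closed_iff.1 hB _ _
    (hc x (hBK hx)).1.isClosed hFc hsub ⟨x, hx, classes_self 𝒯 x⟩ ⟨y, hy, hyF⟩
  apply hCx
  rw [← classes_eq 𝒯 u w hw2, ← classes_eq 𝒯 x w hw1]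

/-- A continuum in `K \ V` meets only finitely many classes. -/
theorem classes_fin' (B : Set E) (hBc : IsCompact B) (hB : IsConnected B) (hBK : B ⊆ K \ V) :
    (ClassesA 𝒯 '' B).Finite := by
  have hc := classes_closed 𝒯 K hK h𝒯 hcov hcl V hV l hl hno
  by_contra hinf
  have hinf' : ((ClassesA 𝒯 '' B) \ (ClassesA 𝒯 '' V)).Infinite :=
    Set.Infinite.sdiff hinf hV.fin
  obtain ⟨t, ht, htl⟩ := hinf'.exists_subset_card_eq l
  let e : Fin l ≃ t := (Finset.equivFinOfCardEq htl).symm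
  have hch : ∀ i : Fin l, ∃ y ∈ B, ClassesA 𝒯 y = (e i : Set E) := by
    intro i
    obtain ⟨⟨y, hy, h⟩, -⟩ := ht (Finset.mem_coe.2 (e i).2)
    exact ⟨y, hy, h⟩
  choose y hyB hy using hch
  have hT : ∀ i : Fin l, ∃ T ∈ 𝒯, y i ∈ T := fun i => hcov _ (hBK (hyB i)).1
  choose T hT𝒯 hyT using hT
  have hTA : ∀ i, T i ⊆ ClassesA 𝒯 (y i) := fun i w hw =>
    Relation.ReflTransGen.single ⟨T i, hT𝒯 i, hyT i, hw⟩
  refine hno ⟨B, T, hBc, hB, hBK, fun i => ⟨hT𝒯 i, ?_, y i, hyT i, hyB i⟩, ?_⟩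
  · rw [Set.disjoint_left]
    intro v hv hvV
    have h1 := classes_eq 𝒯 _ _ (hTA i hv)
    exact (ht (Finset.mem_coe.2 (e i).2)).2 ⟨v, hvV, h1.trans (hy i)⟩
  · intro i j hij
    rw [Set.disjoint_left]
    intro w hwi hwj
    have h1 := classes_eq 𝒯 _ _ (hTA i hwi)
    have h2 := classes_eq 𝒯 _ _ (hTA j hwj)
    apply hij
    apply e.injective
    apply Subtype.ext
    rw [← hy i, ← hy j, ← h1, ← h2]

variable (hKc : IsConnected K)
include hKc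

/-- A class which is not everything contains a point of `V`. -/
theorem classes_meet (x z : E) (hx : x ∈ K) (hz : z ∈ K) (hzx : z ∉ ClassesA 𝒯 x) :
    ∃ v ∈ V, v ∈ ClassesA 𝒯 x := by
  by_contra hcon
  push Not at hcon
  have hc := classes_closed 𝒯 K hK h𝒯 hcov hcl V hV l hl hno
  obtain ⟨hAc, hAconn, hAK, -⟩ := hc x hx
  have hW : IsClosed (insert z V) := by
    rw [Set.insert_eq]
    exact isClosed_singleton.union hV.closed
  have hdis : Disjoint (ClassesA 𝒯 x) (insert z V) := by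
    rw [Set.disjoint_left]
    rintro w hw (rfl | hwV)
    · exact hzx hw
    · exact hcon w hwV hw
  obtain ⟨O, hO, hAO, hOW⟩ : ∃ O : Set E, IsOpen O ∧ ClassesA 𝒯 x ⊆ O ∧
      Disjoint (closure O) (insert z V) := by
    obtain ⟨O, hO, h1, h2⟩ := normal_exists_closure_subset hAc.isClosed hW.isOpen_compl
      (Set.disjoint_left.1 hdis)
    exact ⟨O, hO, h1, Set.disjoint_left.2 h2⟩
  have : CompactSpace K := isCompact_iff_compactSpace.1 hK
  have : ConnectedSpace K := isConnected_iff_connectedSpace.1 hKc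
  set S : Set K := (↑) ⁻¹' closure O with hS
  have hSc : IsClosed S := isClosed_closure.preimage continuous_subtype_val
  have hSne : S ≠ univ := by
    intro h
    have : (⟨z, hz⟩ : K) ∈ S := h ▸ mem_univ _
    exact Set.disjoint_left.1 hOW this (Set.mem_insert z V)
  have hxS : (⟨x, hx⟩ : K) ∈ S := subset_closure (hAO (classes_self 𝒯 x))
  obtain ⟨p, hp, hp'⟩ := bump S hSc hSne ⟨x, hx⟩ hxS
  set D := connectedComponentIn S (⟨x, hx⟩ : K) with hD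
  have hDc : IsClosed D := isClosed_cci S hSc _
  have hDS : D ⊆ S := connectedComponentIn_subset _ _
  set B : Set E := (↑) '' D with hB
  have hBc : IsCompact B := hDc.isCompact.image continuous_subtype_val
  have hBconn : IsConnected B :=
    (isConnected_connectedComponentIn_iff.2 hxS).image _ continuous_subtype_val.continuousOn
  have hBK : B ⊆ K \ V := by
    rintro _ ⟨w, hw, rfl⟩
    exact ⟨w.2, fun hwV => Set.disjoint_left.1 hOW (hDS hw) (Set.mem_insert_of_mem z hwV)⟩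
  have hfin := classes_fin' 𝒯 K hK h𝒯 hcov hcl V hV l hl hno B hBc hBconn hBK
  have hsub := classes_fin 𝒯 K hK h𝒯 hcov hcl V hV l hl hno B hBconn.isPreconnected
    (fun w hw => (hBK hw).1) hfin x ⟨⟨x, hx⟩, mem_connectedComponentIn hxS, rfl⟩
  have hpA : (p : E) ∈ ClassesA 𝒯 x := hsub ⟨p, hp, rfl⟩
  -- `p` is not in `O`
  have hpO : p ∉ ((↑) ⁻¹' O : Set K) := by
    intro h
    have hOp : IsOpen ((↑) ⁻¹' O : Set K) := hO.preimage continuous_subtype_val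
    obtain ⟨q, hq, hq'⟩ := mem_closure_iff.1 hp' _ hOp h
    exact hq' (subset_closure hq)
  exact hpO (hAO hpA)

/-- There is only one class, so every point of `K` is joined to `z` by a chain of `M` visits. -/
theorem one_class (z : E) (hz : z ∈ K) : ∃ M, ∀ x ∈ K, x ∈ Lev 𝒯 z M := by
  have hc := classes_closed 𝒯 K hK h𝒯 hcov hcl V hV l hl hno
  obtain ⟨-, -, -, M, hM⟩ := hc z hz
  refine ⟨M, fun x hx => ?_⟩
  rw [← hM]
  by_contra hxz
  -- all classes meet `V`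
  have hall : ∀ y ∈ K, ∃ v ∈ V, v ∈ ClassesA 𝒯 y := by
    intro y hy
    by_cases hyz : z ∈ ClassesA 𝒯 y
    · refine classes_meet 𝒯 K hK h𝒯 hcov hcl V hV l hl hno hKc y x hy hx ?_
      intro h
      apply hxz
      rw [classes_eq 𝒯 y z hyz]
      exact h
    · exact classes_meet 𝒯 K hK h𝒯 hcov hcl V hV l hl hno hKc y z hy hz hyz
  have hfin : (ClassesA 𝒯 '' K).Finite := by
    refine hV.fin.subset ?_
    rintro _ ⟨y, hy, rfl⟩
    obtain ⟨v, hv, hvy⟩ := hall y hy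
    exact ⟨v, hv, classes_eq 𝒯 y v hvy⟩
  exact hxz (classes_fin 𝒯 K hK h𝒯 hcov hcl V hV l hl hno K hKc.isPreconnected Subset.rfl hfin
    z hz hx)

end

end Pool.Agent.Lib.MP_40f35d_gt.H
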