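import Pool.Agent.Lib.MP_40f35d_gt.H.Rd

/-!
# Compression of words
-/

set_option autoImplicit false

namespace Pool.Agent.Lib.MP_40f35d_gt.H

/-- A compression of a near path. -/
structure CG (A W : List ℕ) : Prop where
  ne : W ≠ []
  near : Near W
  sub : ∀ i ∈ W, i ∈ A
  head : W.head? = A.head?
  last : W.getLast? = A.getLast?
  rd : Rd W A 0 (W.length - 1)

theorem cmp_nr_symm {i j : ℕ} (h : Nr i j) : Nr j i := ⟨h.2, h.1⟩

theorem cmp_near_reverse {A : List ℕ} (h : Near A) : Near A.reverse := by
  unfold Near at *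
  rw [List.isChain_reverse]
  exact h.imp fun a b hab => cmp_nr_symm hab

theorem cmp_near_range' (a n : ℕ) : Near (List.range' a n) := by
  have h := List.isChain_range' a n 1
  exact h.imp fun x y hxy => by subst hxy; exact ⟨by omega, by omega⟩

theorem CG.append {A B W V : List ℕ} (hA : CG A W) (hB : CG B V) (hA0 : A ≠ []) (hB0 : B ≠ [])
    (hn : Near (A ++ B)) : CG (A ++ B) (W ++ V) := by
  refine ⟨?_, ?_, ?_, ?_, ?_, ?_⟩
  · simp [hA.ne]
  · unfold Near at *
    refine hA.near.append hB.near ?_
    rw [hA.last, hB.head]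
    exact (List.isChain_append.1 hn).2.2
  · intro i hi
    rw [List.mem_append] at hi ⊢
    exact hi.imp (hA.sub i) (hB.sub i)
  · rw [List.head?_append_of_ne_nil _ hA.ne, List.head?_append_of_ne_nil _ hA0, hA.head]
  · rw [List.getLast?_append_of_ne_nil _ hB.ne, List.getLast?_append_of_ne_nil _ hB0, hB.last]
  · exact Rd.join hA.ne hB.ne hA.rd hB.rd

theorem cmp_near_ivt (A : List ℕ) (h : Near A) (k : ℕ) : ∀ i ∈ A, ∀ j ∈ A, i ≤ k → k ≤ j → k ∈ A := by
  induction A with
  | nil => intro i hi; simp at hi
  | cons x t ih =>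
    intro i hi j hj hik hkj
    have ht : Near t := h.tail
    rcases t with _ | ⟨y, t⟩
    · simp only [List.mem_singleton] at hi hj ⊢
      omega
    · have hxy : Nr x y := (List.isChain_cons_cons.1 h).1
      have hy : y ∈ y :: t := by simp
      by_cases hkx : k = x
      · subst hkx; simp
      · right
        rcases List.mem_cons.1 hi with hi | hi
        · rcases List.mem_cons.1 hj with hj | hj
          · omega
          · refine ih ht y hy j hj ?_ hkj
            have := hxy.1
            have := hxy.2
            omega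
        · rcases List.mem_cons.1 hj with hj | hj
          · refine ih ht i hi y hy hik ?_
            have := hxy.1
            have := hxy.2
            omega
          · exact ih ht i hi j hj hik hkj

theorem cmp_first_occ (P : ℕ → Prop) (A : List ℕ) (h : ∃ x ∈ A, P x) :
    ∃ (A1 : List ℕ) (x : ℕ) (A2 : List ℕ), A = A1 ++ x :: A2 ∧ P x ∧ ∀ y ∈ A1, ¬ P y := by
  classical
  induction A with
  | nil => simp at h
  | cons c t ih =>
    by_cases hc : P c
    · exact ⟨[], c, t, rfl, hc, by simp⟩
    · obtain ⟨A1, x, A2, rfl, hx, h1⟩ := ih (by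
        obtain ⟨x, hx, hPx⟩ := h
        rcases List.mem_cons.1 hx with rfl | hx
        · exact absurd hPx hc
        · exact ⟨x, hx, hPx⟩)
      refine ⟨c :: A1, x, A2, rfl, hx, ?_⟩
      intro y hy
      rcases List.mem_cons.1 hy with rfl | hy
      · exact hc
      · exact h1 y hy

theorem cmp_last_occ (P : ℕ → Prop) (A : List ℕ) (h : ∃ x ∈ A, P x) :
    ∃ (A1 : List ℕ) (x : ℕ) (A2 : List ℕ), A = A1 ++ x :: A2 ∧ P x ∧ ∀ y ∈ A2, ¬ P y := by
  obtain ⟨A1, x, A2, hA, hx, h1⟩ := cmp_first_occ P A.reverse (by simpa using h)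
  refine ⟨A2.reverse, x, A1.reverse, ?_, hx, by simpa using h1⟩
  have := congrArg List.reverse hA
  simpa using this

theorem cmp_rd_up (a n : ℕ) (M : List ℕ) (hM : Near M) (h : ∀ i ∈ M, a ≤ i ∧ i ≤ a + n)
    (hx : M.head? = some a) (hy : M.getLast? = some (a + n)) :
    Rd (List.range' a (n + 1)) M 0 n := by
  have := rd_range a n M hM h a (a + n) hx hy
  simpa using this

theorem cmp_rd_down (a n : ℕ) (M : List ℕ) (hM : Near M) (h : ∀ i ∈ M, a ≤ i ∧ i ≤ a + n)
    (hx : M.head? = some (a + n)) (hy : M.getLast? = some a) :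
    Rd (List.range' a (n + 1)).reverse M 0 n := by
  have := (rd_range a n M hM h (a + n) a hx hy).mirror
  simpa using this

theorem cmp_head_range' (a n : ℕ) : (List.range' a (n + 1)).head? = some a := by
  simp [List.range'_succ]

theorem cmp_last_range' (a n : ℕ) : (List.range' a (n + 1)).getLast? = some (a + n) := by
  rw [List.range'_concat]
  simp

theorem cg_up (a n : ℕ) (M : List ℕ) (hM : Near M) (h : ∀ i ∈ M, a ≤ i ∧ i ≤ a + n)
    (hx : M.head? = some a) (hy : M.getLast? = some (a + n)) :
    CG M (List.range' a (n + 1)) := by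
  refine ⟨by simp, cmp_near_range' _ _, ?_, ?_, ?_, ?_⟩
  · intro i hi
    rw [List.mem_range'_1] at hi
    exact cmp_near_ivt M hM i a (List.mem_of_mem_head? hx) (a + n) (List.mem_of_mem_getLast? hy)
      hi.1 (by omega)
  · rw [hx, cmp_head_range']
  · rw [hy, cmp_last_range']
  · simpa using cmp_rd_up a n M hM h hx hy

theorem cg_down (a n : ℕ) (M : List ℕ) (hM : Near M) (h : ∀ i ∈ M, a ≤ i ∧ i ≤ a + n)
    (hx : M.head? = some (a + n)) (hy : M.getLast? = some a) :
    CG M (List.range' a (n + 1)).reverse := by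
  refine ⟨by simp, cmp_near_reverse (cmp_near_range' _ _), ?_, ?_, ?_, ?_⟩
  · intro i hi
    rw [List.mem_reverse, List.mem_range'_1] at hi
    exact cmp_near_ivt M hM i a (List.mem_of_mem_getLast? hy) (a + n) (List.mem_of_mem_head? hx)
      hi.1 (by omega)
  · rw [hx, List.head?_reverse, cmp_last_range']
  · rw [hy, List.getLast?_reverse, cmp_head_range']
  · simpa using cmp_rd_down a n M hM h hx hy

/-- Compression of a near path which starts and ends with an extreme letter. -/
theorem cg_core (a n : ℕ) (M : List ℕ) (hM : Near M) (h : ∀ i ∈ M, a ≤ i ∧ i ≤ a + n) (x y : ℕ)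
    (hx : M.head? = some x) (hy : M.getLast? = some y) (hxP : x = a ∨ x = a + n)
    (hyP : y = a ∨ y = a + n) (ha : a ∈ M) (hb : a + n ∈ M) :
    ∃ W : List ℕ, W.length ≤ 2 * n + 1 ∧ CG M W := by
  by_cases hxa : x = a
  · by_cases hyb : y = a + n
    · subst hxa hyb
      exact ⟨_, by simp; omega, cg_up _ _ M hM h hx hy⟩
    · -- from `a` to `a`
      have hya : y = a := by tauto
      subst hya
      subst hxa
      obtain ⟨m, rfl⟩ : ∃ m, n = m + 1 := ⟨n - 1, by omega⟩
      obtain ⟨M1, z, M2, rfl, hz, h1⟩ := cmp_first_occ (fun t => t = x + (m + 1)) M ⟨_, hb, rfl⟩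
      subst hz
      have hM1 : M1 ≠ [] := by
        rintro rfl
        simp at hx
      have hM1n : Near M1 := List.IsChain.left_of_append hM
      have hM2n : Near ((x + (m + 1)) :: M2) := List.IsChain.right_of_append hM
      have hM1x : M1.head? = some x := by
        rwa [List.head?_append_of_ne_nil _ hM1] at hx
      have hM2y : ((x + (m + 1)) :: M2).getLast? = some x := by
        rwa [List.getLast?_append_of_ne_nil _ (by simp)] at hy
      have hM1l : ∀ i ∈ M1, x ≤ i ∧ i ≤ x + m := by
        intro i hi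
        have h2 := h i (List.mem_append_left _ hi)
        have h3 := h1 i hi
        omega
      have hM1y : M1.getLast? = some (x + m) := by
        obtain ⟨w, hw⟩ : ∃ w, M1.getLast? = some w := by
          exact ⟨_, List.getLast?_eq_some_getLast hM1⟩
        have h2 := (List.isChain_append.1 hM).2.2 w hw (x + (m + 1)) rfl
        have h3 := hM1l w (List.mem_of_mem_getLast? hw)
        have h4 := h2.2
        rw [hw]
        congr 1
        omega
      refine ⟨_, ?_, CG.append (cg_up _ _ M1 hM1n hM1l hM1x hM1y)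
        (cg_down _ _ _ hM2n (fun i hi => h i (List.mem_append_right _ hi)) rfl hM2y) hM1 (by simp)
        hM⟩
      simp
      omega
  · have hxb : x = a + n := by tauto
    by_cases hya : y = a
    · subst hya hxb
      exact ⟨_, by simp; omega, cg_down _ _ M hM h hx hy⟩
    · have hyb : y = a + n := by tauto
      subst hyb
      subst hxb
      obtain ⟨m, rfl⟩ : ∃ m, n = m + 1 := ⟨n - 1, by omega⟩
      obtain ⟨M1, z, M2, rfl, hz, h1⟩ := cmp_first_occ (fun t => t = a) M ⟨_, ha, rfl⟩
      subst hz
      have hM1 : M1 ≠ [] := by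
        rintro rfl
        simp at hx
      have hM1n : Near M1 := List.IsChain.left_of_append hM
      have hM2n : Near (z :: M2) := List.IsChain.right_of_append hM
      have hM1x : M1.head? = some (z + 1 + m) := by
        rw [List.head?_append_of_ne_nil _ hM1] at hx
        rw [hx]
        congr 1
        omega
      have hM2y : (z :: M2).getLast? = some (z + (m + 1)) := by
        rwa [List.getLast?_append_of_ne_nil _ (by simp)] at hy
      have hM1l : ∀ i ∈ M1, z + 1 ≤ i ∧ i ≤ z + 1 + m := by
        intro i hi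
        have h2 := h i (List.mem_append_left _ hi)
        have h3 := h1 i hi
        omega
      have hM1y : M1.getLast? = some (z + 1) := by
        obtain ⟨w, hw⟩ : ∃ w, M1.getLast? = some w := by
          exact ⟨_, List.getLast?_eq_some_getLast hM1⟩
        have h2 := (List.isChain_append.1 hM).2.2 w hw z rfl
        have h3 := hM1l w (List.mem_of_mem_getLast? hw)
        have h4 := h2.1
        rw [hw]
        congr 1
        omega
      refine ⟨_, ?_, CG.append (cg_down _ _ M1 hM1n hM1l hM1x hM1y)
        (cg_up _ _ _ hM2n (fun i hi => h i (List.mem_append_right _ hi)) rfl hM2y) hM1 (by simp)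
        hM⟩
      simp
      omega

theorem compress_cg (n : ℕ) : ∃ B : ℕ, ∀ (a : ℕ) (A : List ℕ), A ≠ [] → Near A →
    (∀ i ∈ A, a ≤ i ∧ i < a + n) → ∃ W : List ℕ, W.length ≤ B ∧ CG A W := by
  induction n with
  | zero =>
    refine ⟨0, ?_⟩
    intro a A hA _ h
    obtain ⟨x, hx⟩ := List.exists_mem_of_ne_nil A hA
    have := h x hx
    omega
  | succ n ih =>
    obtain ⟨B, hB⟩ := ih
    refine ⟨B + (2 * n + 1) + B, ?_⟩
    intro a A hA hN h
    by_cases ha : a ∈ A
    · by_cases hb : a + n ∈ A
      · obtain ⟨A1, x, A', hA', hx, h1⟩ := cmp_first_occ (fun t => t = a ∨ t = a + n) A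
          ⟨a, ha, Or.inl rfl⟩
        obtain ⟨M', y, A2, hM', hy, h2⟩ := cmp_last_occ (fun t => t = a ∨ t = a + n) (x :: A')
          ⟨x, by simp, hx⟩
        obtain ⟨M, hM⟩ : ∃ M, M = M' ++ [y] := ⟨_, rfl⟩
        have hAM : A = A1 ++ (M ++ A2) := by rw [hA', hM', hM]; simp
        have hMne : M ≠ [] := by rw [hM]; simp
        have hMx : M.head? = some x := by
          have h3 : (M ++ A2).head? = some x := by
            rw [hM, List.append_assoc, List.singleton_append, ← hM']; rfl
          rwa [List.head?_append_of_ne_nil _ hMne] at h3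
        have hMy : M.getLast? = some y := by rw [hM]; simp
        have hMA2 : Near (M ++ A2) := by
          rw [hAM] at hN
          exact List.IsChain.right_of_append hN
        have hMn : Near M := List.IsChain.left_of_append hMA2
        have hA2n : Near A2 := List.IsChain.right_of_append hMA2
        have hA1n : Near A1 := by
          rw [hAM] at hN
          exact List.IsChain.left_of_append hN
        have hmem : ∀ t, (t = a ∨ t = a + n) → t ∈ A → t ∈ M := by
          intro t ht htA
          rw [hAM, List.mem_append, List.mem_append] at htA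
          rcases htA with h3 | h3 | h3
          · exact absurd ht (h1 t h3)
          · exact h3
          · exact absurd ht (h2 t h3)
        have hMl : ∀ i ∈ M, a ≤ i ∧ i ≤ a + n := by
          intro i hi
          have h3 := h i (by rw [hAM]; simp [hi])
          omega
        obtain ⟨W0, hW0, hG0⟩ := cg_core a n M hMn hMl x y hMx hMy hx hy
          (hmem a (Or.inl rfl) ha) (hmem _ (Or.inr rfl) hb)
        -- append `A2`
        obtain ⟨W2, hW2, hG2⟩ : ∃ W : List ℕ, W.length ≤ 2 * n + 1 + B ∧ CG (M ++ A2) W := by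
          by_cases hA2 : A2 = []
          · subst hA2
            rw [List.append_nil]
            exact ⟨W0, by omega, hG0⟩
          · obtain ⟨V, hV, hGV⟩ := hB (a + 1) A2 hA2 hA2n (by
              intro i hi
              have h3 := h i (by rw [hAM]; simp [hi])
              have h4 := h2 i hi
              omega)
            exact ⟨W0 ++ V, by rw [List.length_append]; omega, hG0.append hGV hMne hA2 hMA2⟩
        by_cases hA1 : A1 = []
        · rw [hAM, hA1, List.nil_append]
          exact ⟨W2, by omega, hG2⟩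
        · obtain ⟨V, hV, hGV⟩ := hB (a + 1) A1 hA1 hA1n (by
            intro i hi
            have h3 := h i (by rw [hAM]; simp [hi])
            have h4 := h1 i hi
            omega)
          refine ⟨V ++ W2, by rw [List.length_append]; omega, ?_⟩
          rw [hAM] at hN ⊢
          exact hGV.append hG2 hA1 (by simp [hMne]) hN
      · obtain ⟨W, hW, hG⟩ := hB a A hA hN (by
          intro i hi
          have h3 := h i hi
          have h4 : i ≠ a + n := fun h5 => hb (h5 ▸ hi)
          omega)
        exact ⟨W, by omega, hG⟩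
    · obtain ⟨W, hW, hG⟩ := hB (a + 1) A hA hN (by
        intro i hi
        have h3 := h i hi
        have h4 : i ≠ a := fun h5 => ha (h5 ▸ hi)
        omega)
      exact ⟨W, by omega, hG⟩

/-- Compression of a near path with letters in an interval of `n` letters. By induction on `n`: if
the first and the last letter `a` and `a + n` of the interval both occur, cut
`A = A1 ++ M ++ A2` at the first and at the last of all the occurrences of the letters `a`, `a + n`;
`A1` and `A2` avoid both; `M` is read along `a..a+n`, its reverse, or (`M` from `a` to `a`, cut before the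
first `a + n`) along `a..a+n-1` followed by `a+n..a`, or the mirror image. -/
theorem compress_near (n : ℕ) : ∃ B : ℕ, ∀ (a : ℕ) (A : List ℕ), A ≠ [] → Near A →
    (∀ i ∈ A, a ≤ i ∧ i < a + n) → ∃ W : List ℕ, W.length ≤ B ∧ W ≠ [] ∧ Near W ∧
      (∀ i ∈ W, i ∈ A) ∧ W.head? = A.head? ∧ W.getLast? = A.getLast? ∧
      Rd W A 0 (W.length - 1) := by
  obtain ⟨B, hB⟩ := compress_cg n
  refine ⟨B, fun a A hA hN h => ?_⟩
  obtain ⟨W, hW, hG⟩ := hB a A hA hN h
  exact ⟨W, hW, hG.ne, hG.near, hG.sub, hG.head, hG.last, hG.rd⟩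

theorem cmp_chain_of {A W : List ℕ} (hW : Near W) (hs : ∀ i ∈ W, i ∈ A) (R : ℕ → ℕ → Prop)
    (h : ∀ i ∈ A, ∀ j ∈ A, Nr i j → R i j) : W.IsChain R :=
  List.IsChain.imp_of_mem_imp (fun i j hi hj hij => h i (hs i hi) j (hs j hj) hij) hW

theorem cmp_seg_mono {k k' : ℕ} {A : List ℕ} (h : Seg k A) (hk : k ≤ k') : Seg k' A := by
  obtain ⟨l, hl, h1, h2⟩ := h
  exact ⟨l, hl.trans hk, h1, h2⟩

theorem cmp_seg_append {k k' : ℕ} {A A' : List ℕ} (h : Seg k A) (h' : Seg k' A') :
    Seg (k + k') (A ++ A') := by
  obtain ⟨l, hl, h1, rfl⟩ := h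
  obtain ⟨l', hl', h1', rfl⟩ := h'
  refine ⟨l ++ l', by rw [List.length_append]; omega, ?_, by simp⟩
  intro B hB
  rcases List.mem_append.1 hB with hB | hB
  · exact h1 B hB
  · exact h1' B hB

theorem cmp_near_seg {A : List ℕ} (h : Near A) (hA : A ≠ []) : Seg 1 A :=
  ⟨[A], by simp, by simpa using ⟨hA, h⟩, by simp⟩

theorem CG.cmp {A W : List ℕ} (h : CG A W) : Cmp 1 A W :=
  ⟨h.ne, cmp_near_seg h.near h.ne, h.sub, h.head, h.last, h.rd,
    fun R hR _ => cmp_chain_of h.near h.sub R hR⟩

theorem Cmp.append {k k' : ℕ} {A A' W W' : List ℕ} (h : Cmp k A W) (h' : Cmp k' A' W')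
    (hA : A ≠ []) (hA' : A' ≠ []) : Cmp (k + k') (A ++ A') (W ++ W') := by
  refine ⟨by simp [h.ne], cmp_seg_append h.seg h'.seg, ?_, ?_, ?_, Rd.join h.ne h'.ne h.rd h'.rd, ?_⟩
  · intro i hi
    rw [List.mem_append] at hi ⊢
    exact hi.imp (h.sub i) (h'.sub i)
  · rw [List.head?_append_of_ne_nil _ h.ne, List.head?_append_of_ne_nil _ hA, h.head]
  · rw [List.getLast?_append_of_ne_nil _ h'.ne, List.getLast?_append_of_ne_nil _ hA', h'.last]
  · intro R hR hc
    rw [List.isChain_append] at hc ⊢
    refine ⟨h.adj R ?_ hc.1, h'.adj R ?_ hc.2.1, ?_⟩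
    · exact fun i hi j hj => hR i (List.mem_append_left _ hi) j (List.mem_append_left _ hj)
    · exact fun i hi j hj => hR i (List.mem_append_right _ hi) j (List.mem_append_right _ hj)
    · rw [h.last, h'.head]
      exact hc.2.2

/-- Compression of a concatenation of at most `k` near paths: compress the near paths. -/
theorem compress (k n : ℕ) : ∃ B : ℕ, ∀ A : List ℕ, A ≠ [] → Seg k A → (∀ i ∈ A, i < n) →
    ∃ W : List ℕ, W.length ≤ B ∧ Cmp k A W := by
  obtain ⟨B, hB⟩ := compress_cg n
  have key : ∀ l : List (List ℕ), l ≠ [] → (∀ A ∈ l, A ≠ [] ∧ Near A) →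
      (∀ i ∈ l.flatten, i < n) → ∃ W : List ℕ, W.length ≤ l.length * B ∧
        Cmp l.length l.flatten W := by
    intro l
    induction l with
    | nil => intro h; exact absurd rfl h
    | cons A l ih =>
      intro _ h1 h2
      obtain ⟨W1, hW1, hG1⟩ := hB 0 A (h1 A (by simp)).1 (h1 A (by simp)).2 (by
        intro i hi
        have := h2 i (by simp [hi])
        omega)
      by_cases hl : l = []
      · subst hl
        refine ⟨W1, by simpa using hW1, ?_⟩
        simpa using hG1.cmp
      · obtain ⟨W2, hW2, hG2⟩ := ih hl (fun A' hA' => h1 A' (by simp [hA']))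
          (fun i hi => h2 i (by rw [List.flatten_cons]; exact List.mem_append_right _ hi))
        refine ⟨W1 ++ W2, ?_, ?_⟩
        · rw [List.length_append, List.length_cons, Nat.add_mul]
          omega
        · have hl' : l.flatten ≠ [] := by
            obtain ⟨A', hA'⟩ := List.exists_mem_of_ne_nil l hl
            intro h3
            rw [List.flatten_eq_nil_iff] at h3
            exact (h1 A' (by simp [hA'])).1 (h3 A' hA')
          have := hG1.cmp.append hG2 (h1 A (by simp)).1 hl'
          rw [List.length_cons, List.flatten_cons, Nat.add_comm]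
          exact this
  refine ⟨k * B, ?_⟩
  rintro A hA ⟨l, hl, h1, rfl⟩ h2
  have hl0 : l ≠ [] := by
    rintro rfl
    simp at hA
  obtain ⟨W, hW, hC⟩ := key l hl0 h1 h2
  refine ⟨W, hW.trans (Nat.mul_le_mul_right _ hl), ?_⟩
  exact ⟨hC.ne, cmp_seg_mono hC.seg hl, hC.sub, hC.head, hC.last, hC.rd, hC.adj⟩

end Pool.Agent.Lib.MP_40f35d_gt.H
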