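import Pool.Agent.Lib.MP_40f35d_gt.H.Base

/-!
# Refining chain covers
-/

set_option autoImplicit false

open Set Topology

namespace Pool.Agent.Lib.MP_40f35d_gt.H

/-- One refinement step. -/
theorem cov_step {Y E : Type} [MetricSpace Y] [CompactSpace Y] [Nonempty Y] [MetricSpace E]
    (hY : Chainable Y) (f : Y → E) (hf : Continuous f) (ε : ℝ) (hε : 0 < ε) (N₀ : ℕ)
    (U₀ : ℕ → Set Y) (hU₀ : ∀ i, IsOpen (U₀ i)) (hc₀ : ∀ y, ∃ i, i < N₀ ∧ y ∈ U₀ i) :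
    ∃ (N : ℕ) (U : ℕ → Set Y) (r : ℕ → ℕ), (∀ i, IsOpen (U i)) ∧
      (∀ y, ∃ i, i < N ∧ y ∈ U i) ∧
      (∀ i j, i < N → j < N → ((U i ∩ U j).Nonempty ↔ Nr i j)) ∧
      (∀ i, i < N → ∀ y ∈ U i, ∀ y' ∈ U i, dist (f y) (f y') ≤ ε) ∧
      ∀ i, i < N → r i < N₀ ∧ U i ⊆ U₀ (r i) := by
  classical
  obtain ⟨δ₁, hδ₁, h₁⟩ := lebesgue_number_lemma_of_metric (s := (univ : Set Y)) isCompact_univ
    (c := fun i : Fin N₀ => U₀ i.1) (fun i => hU₀ i.1) (fun y _ => by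
      obtain ⟨i, hi, hy⟩ := hc₀ y
      exact mem_iUnion.2 ⟨⟨i, hi⟩, hy⟩)
  obtain ⟨δ₂, hδ₂, h₂⟩ := Metric.uniformContinuous_iff.1
    (CompactSpace.uniformContinuous_of_continuous hf) ε hε
  obtain ⟨n, V, hVo, hVc, hVd, hVV⟩ := hY (min δ₁ δ₂) (lt_min hδ₁ hδ₂)
  have hdist : ∀ i, ∀ y ∈ V i, ∀ y' ∈ V i, dist y y' < min δ₁ δ₂ := fun i y hy y' hy' =>
    lt_of_le_of_lt (Metric.dist_le_diam_of_mem (isCompact_univ.isBounded.subset
      (subset_univ _)) hy hy') (hVd i)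
  have hne : ∀ i, (V i).Nonempty := by
    intro i
    obtain ⟨y, hy, -⟩ := (hVV i i).2 ⟨by omega, by omega⟩
    exact ⟨y, hy⟩
  have hr : ∀ i : Fin n, ∃ j : Fin N₀, V i ⊆ U₀ j.1 := by
    intro i
    obtain ⟨y, hy⟩ := hne i
    obtain ⟨j, hj⟩ := h₁ y (mem_univ y)
    refine ⟨j, fun y' hy' => hj ?_⟩
    exact lt_of_lt_of_le (hdist i y' hy' y hy) (min_le_left _ _)
  choose r hr using hr
  have hVi : ∀ (i : ℕ) (h : i < n), (if h : i < n then V ⟨i, h⟩ else ∅) = V ⟨i, h⟩ :=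
    fun i h => dif_pos h
  refine ⟨n, fun i => if h : i < n then V ⟨i, h⟩ else ∅,
    fun i => if h : i < n then (r ⟨i, h⟩).1 else 0, ?_, ?_, ?_, ?_, ?_⟩
  · intro i
    by_cases h : i < n
    · simp only [h, dif_pos]
      exact hVo _
    · simp only [h, dif_neg, not_false_eq_true]
      exact isOpen_empty
  · intro y
    have hy : y ∈ ⋃ i, V i := by rw [hVc]; trivial
    obtain ⟨i, hi⟩ := mem_iUnion.1 hy
    exact ⟨i.1, i.2, by simpa only [i.2, dif_pos] using hi⟩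
  · intro i j hi hj
    simp only [hi, hj, dif_pos]
    exact hVV ⟨i, hi⟩ ⟨j, hj⟩
  · intro i hi y hy y' hy'
    simp only [hi, dif_pos] at hy hy'
    exact (h₂ (lt_of_lt_of_le (hdist _ y hy y' hy') (min_le_right _ _))).le
  · intro i hi
    simp only [hi, dif_pos]
    exact ⟨(r ⟨i, hi⟩).2, hr ⟨i, hi⟩⟩

/-- A sequence of chain covers, each refining the one before, with small images. -/
theorem covers {Y E : Type} [MetricSpace Y] [CompactSpace Y] [Nonempty Y] [MetricSpace E]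
    (hY : Chainable Y) (f : Y → E) (hf : Continuous f) (ε : ℕ → ℝ) (hε : ∀ n, 0 < ε n) :
    ∃ (N : ℕ → ℕ) (U : ℕ → ℕ → Set Y) (r : ℕ → ℕ → ℕ), (∀ n i, IsOpen (U n i)) ∧
      (∀ n y, ∃ i, i < N n ∧ y ∈ U n i) ∧
      (∀ n i j, i < N n → j < N n → ((U n i ∩ U n j).Nonempty ↔ Nr i j)) ∧
      (∀ n i, i < N n → ∀ y ∈ U n i, ∀ y' ∈ U n i, dist (f y) (f y') ≤ ε n) ∧
      ∀ n i, i < N (n + 1) → r n i < N n ∧ U (n + 1) i ⊆ U n (r n i) := by
  classical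
  let S : Type := {s : ℕ × (ℕ → Set Y) // (∀ i, IsOpen (s.2 i)) ∧ ∀ y, ∃ i, i < s.1 ∧ y ∈ s.2 i}
  have hst : ∀ (n : ℕ) (s : S), ∃ (s' : S) (r : ℕ → ℕ),
      (∀ i j, i < s'.1.1 → j < s'.1.1 → ((s'.1.2 i ∩ s'.1.2 j).Nonempty ↔ Nr i j)) ∧
      (∀ i, i < s'.1.1 → ∀ y ∈ s'.1.2 i, ∀ y' ∈ s'.1.2 i, dist (f y) (f y') ≤ ε n) ∧
      ∀ i, i < s'.1.1 → r i < s.1.1 ∧ s'.1.2 i ⊆ s.1.2 (r i) := by
    intro n s
    obtain ⟨N, U, r, h1, h2, h3, h4, h5⟩ := cov_step hY f hf (ε n) (hε n) s.1.1 s.1.2 s.2.1 s.2.2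
    exact ⟨⟨(N, U), h1, h2⟩, r, h3, h4, h5⟩
  choose nxt rr h3 h4 h5 using hst
  let s₀ : S := ⟨(1, fun _ => univ), fun _ => isOpen_univ, fun y => ⟨0, Nat.one_pos, mem_univ y⟩⟩
  let F : ℕ → S := fun n => Nat.rec s₀ (fun n s => nxt n s) n
  have hF : ∀ n, F (n + 1) = nxt n (F n) := fun n => rfl
  refine ⟨fun n => (F (n + 1)).1.1, fun n => (F (n + 1)).1.2, fun n => rr (n + 1) (F (n + 1)),
    fun n => (F (n + 1)).2.1, fun n => (F (n + 1)).2.2, ?_, ?_, ?_⟩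
  · intro n i j hi hj
    exact h3 n (F n) i j hi hj
  · intro n i hi
    exact h4 n (F n) i hi
  · intro n i hi
    exact h5 (n + 1) (F (n + 1)) i hi

/-- A connected set which meets two links of a chain cover meets all the links between them. -/
theorem between {Y : Type} [TopologicalSpace Y] (N : ℕ) (U : ℕ → Set Y) (hU : ∀ i, IsOpen (U i))
    (hc : ∀ y, ∃ i, i < N ∧ y ∈ U i)
    (hn : ∀ i j, i < N → j < N → ((U i ∩ U j).Nonempty ↔ Nr i j)) (C : Set Y)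
    (hC : IsPreconnected C) (i j k : ℕ) (hi : (C ∩ U i).Nonempty) (hj : (C ∩ U j).Nonempty)
    (hik : i ≤ k) (hkj : k ≤ j) (hjN : j < N) : (C ∩ U k).Nonempty := by
  by_contra hcon
  have hik' : i < k := lt_of_le_of_ne hik (by rintro rfl; exact hcon hi)
  have hkj' : k < j := lt_of_le_of_ne hkj (by rintro rfl; exact hcon hj)
  obtain ⟨y, -, hy1, hy2⟩ := hC (⋃ m ∈ {m : ℕ | m < k}, U m)
    (⋃ m ∈ {m : ℕ | k < m ∧ m < N}, U m) (isOpen_biUnion fun m _ => hU m)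
    (isOpen_biUnion fun m _ => hU m) (by
      intro y hy
      obtain ⟨m, hm, hym⟩ := hc y
      rcases lt_trichotomy m k with h | h | h
      · exact Or.inl (mem_biUnion (show m ∈ {m : ℕ | m < k} from h) hym)
      · subst h
        exact absurd ⟨y, hy, hym⟩ hcon
      · exact Or.inr (mem_biUnion (show m ∈ {m : ℕ | k < m ∧ m < N} from ⟨h, hm⟩) hym)) (by
      obtain ⟨y, hy, hy'⟩ := hi
      exact ⟨y, hy, mem_biUnion (show i ∈ {m : ℕ | m < k} from hik') hy'⟩) (by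
      obtain ⟨y, hy, hy'⟩ := hj
      exact ⟨y, hy, mem_biUnion (show j ∈ {m : ℕ | k < m ∧ m < N} from ⟨hkj', hjN⟩) hy'⟩)
  rw [mem_iUnion₂] at hy1 hy2
  obtain ⟨m, hm, hym⟩ := hy1
  obtain ⟨m', hm', hym'⟩ := hy2
  have hm1 : m < k := hm
  have hm2 : k < m' ∧ m' < N := hm'
  have h := (hn m m' (by omega) hm2.2).1 ⟨y, hym, hym'⟩
  unfold Nr at h
  omega

theorem cov_path (i j : ℕ) (hij : i ≤ j) : ∃ A : List ℕ, Near A ∧ A.head? = some i ∧
    A.getLast? = some j ∧ ∀ k ∈ A, i ≤ k ∧ k ≤ j := by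
  induction hij with
  | refl =>
    refine ⟨[i], List.isChain_singleton _, rfl, rfl, ?_⟩
    intro k hk
    have : k = i := by simpa using hk
    omega
  | @step j hij ih =>
    obtain ⟨A, h1, h2, h3, h4⟩ := ih
    refine ⟨A ++ [j + 1], ?_, ?_, ?_, ?_⟩
    · unfold Near
      rw [List.isChain_append]
      refine ⟨h1, List.isChain_singleton _, ?_⟩
      intro x hx y hy
      rw [h3] at hx
      have hx' : j = x := by simpa using hx
      have hy' : j + 1 = y := by simpa using hy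
      unfold Nr
      omega
    · rw [List.head?_append, h2]
      rfl
    · rw [List.getLast?_append]
      rfl
    · intro k hk
      rcases List.mem_append.1 hk with hk | hk
      · have := h4 k hk
        omega
      · have hij' : i ≤ j := hij
        have : k = j + 1 := by simpa using hk
        omega

/-- A near path between two links which meet a connected set. -/
theorem near_path {Y : Type} [TopologicalSpace Y] (N : ℕ) (U : ℕ → Set Y)
    (hU : ∀ i, IsOpen (U i)) (hc : ∀ y, ∃ i, i < N ∧ y ∈ U i)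
    (hn : ∀ i j, i < N → j < N → ((U i ∩ U j).Nonempty ↔ Nr i j)) (C : Set Y)
    (hC : IsPreconnected C) (p q : Y) (hp : p ∈ C) (hq : q ∈ C) :
    ∃ (A : List ℕ) (i j : ℕ), Near A ∧ A.head? = some i ∧ A.getLast? = some j ∧ p ∈ U i ∧
      q ∈ U j ∧ ∀ k ∈ A, k < N ∧ (C ∩ U k).Nonempty := by
  obtain ⟨i, hi, hpi⟩ := hc p
  obtain ⟨j, hj, hqj⟩ := hc q
  rcases le_total i j with hij | hij
  · obtain ⟨A, h1, h2, h3, h4⟩ := cov_path i j hij
    refine ⟨A, i, j, h1, h2, h3, hpi, hqj, fun k hk => ⟨by have := h4 k hk; omega, ?_⟩⟩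
    exact between N U hU hc hn C hC i j k ⟨p, hp, hpi⟩ ⟨q, hq, hqj⟩ (h4 k hk).1 (h4 k hk).2 hj
  · obtain ⟨A, h1, h2, h3, h4⟩ := cov_path j i hij
    refine ⟨A.reverse, i, j, ?_, ?_, ?_, hpi, hqj, fun k hk => ?_⟩
    · unfold Near
      rw [List.isChain_reverse]
      refine h1.imp ?_
      intro a b hab
      exact ⟨hab.2, hab.1⟩
    · rw [List.head?_reverse, h3]
    · rw [List.getLast?_reverse, h2]
    · have hk' := h4 k (List.mem_reverse.1 hk)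
      exact ⟨by omega, between N U hU hc hn C hC j i k ⟨q, hq, hqj⟩ ⟨p, hp, hpi⟩ hk'.1 hk'.2 hi⟩

end Pool.Agent.Lib.MP_40f35d_gt.H
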