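import Pool.Agent.Lib.MP_40f35d_gt.H.Cmp
import Pool.Agent.Lib.MP_40f35d_gt.H.Cov

/-!
# The engine: bounded chains of visits make `K` weakly chainable
-/

set_option autoImplicit false

open Set Topology

namespace Pool.Agent.Lib.MP_40f35d_gt.H

section

variable {Y E : Type} (f : Y → E) (K : Set E) (z : E) (M : ℕ)

/-- Two links have points with the same value. -/
def Adj (f : Y → E) (U : ℕ → Set Y) (i j : ℕ) : Prop := ∃ a ∈ U i, ∃ b ∈ U j, f a = f b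

/-- Good words of the level of the chain cover `U`. -/
structure Ok (U : ℕ → Set Y) (N : ℕ) (τ : List ℕ) : Prop where
  ne : τ ≠ []
  seg : Seg M τ
  lt : ∀ i ∈ τ, i < N ∧ ∃ y ∈ U i, f y ∈ K
  chain : τ.IsChain (Adj f U)
  head : ∃ i, τ.head? = some i ∧ ∃ p ∈ U i, f p = z

/-- The word ends over the point `x`. -/
def Ends (U : ℕ → Set Y) (τ : List ℕ) (x : E) : Prop :=
  ∃ i, τ.getLast? = some i ∧ ∃ q ∈ U i, f q = x

theorem engine_adj_of_near (U : ℕ → Set Y) (N : ℕ)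
    (hn : ∀ i j, i < N → j < N → ((U i ∩ U j).Nonempty ↔ Nr i j)) {i j : ℕ} (hi : i < N)
    (hj : j < N) (h : Nr i j) : Adj f U i j := by
  obtain ⟨y, hy1, hy2⟩ := (hn i j hi hj).2 h
  exact ⟨y, hy1, y, hy2, rfl⟩

theorem engine_chain_of_near (U : ℕ → Set Y) (N : ℕ)
    (hn : ∀ i j, i < N → j < N → ((U i ∩ U j).Nonempty ↔ Nr i j)) {A : List ℕ}
    (hA : Near A) (h : ∀ i ∈ A, i < N) : A.IsChain (Adj f U) :=
  List.IsChain.imp_of_mem_imp
    (fun i j hi hj hij => engine_adj_of_near f U N hn (h i hi) (h j hj) hij) hA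

theorem engine_seg_append {k k' : ℕ} {A A' : List ℕ} (h : Seg k A) (h' : Seg k' A') :
    Seg (k + k') (A ++ A') := cmp_seg_append h h'

/-- One visit gives a near path. -/
theorem engine_visit [TopologicalSpace Y] (U : ℕ → Set Y) (N : ℕ) (hU : ∀ i, IsOpen (U i))
    (hc : ∀ y, ∃ i, i < N ∧ y ∈ U i)
    (hn : ∀ i j, i < N → j < N → ((U i ∩ U j).Nonempty ↔ Nr i j)) (a b : E)
    (hv : Vis f K a b) :
    ∃ A : List ℕ, A ≠ [] ∧ Near A ∧ (∀ i ∈ A, i < N ∧ ∃ y ∈ U i, f y ∈ K) ∧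
      (∃ i, A.head? = some i ∧ ∃ p ∈ U i, f p = a) ∧
      ∃ j, A.getLast? = some j ∧ ∃ q ∈ U j, f q = b := by
  obtain ⟨C, hC, hCK, ⟨p, hp, hpa⟩, ⟨q, hq, hqb⟩⟩ := hv
  obtain ⟨A, i, j, h1, h2, h3, h4, h5, h6⟩ := near_path N U hU hc hn C hC p q hp hq
  refine ⟨A, ?_, h1, ?_, ⟨i, h2, p, h4, hpa⟩, ⟨j, h3, q, h5, hqb⟩⟩
  · rintro rfl
    simp at h2
  · intro k hk
    obtain ⟨h7, y, hy1, hy2⟩ := h6 k hk
    exact ⟨h7, y, hy2, hCK (mem_image_of_mem f hy1)⟩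

/-- `m + 1` visits give a word. -/
theorem engine_visits [TopologicalSpace Y] (U : ℕ → Set Y) (N : ℕ) (hU : ∀ i, IsOpen (U i))
    (hc : ∀ y, ∃ i, i < N ∧ y ∈ U i)
    (hn : ∀ i j, i < N → j < N → ((U i ∩ U j).Nonempty ↔ Nr i j)) (a : ℕ → E) (m : ℕ)
    (ha : ∀ k < m + 1, Vis f K (a k) (a (k + 1))) :
    ∃ A : List ℕ, A ≠ [] ∧ Seg (m + 1) A ∧ (∀ i ∈ A, i < N ∧ ∃ y ∈ U i, f y ∈ K) ∧
      A.IsChain (Adj f U) ∧ (∃ i, A.head? = some i ∧ ∃ p ∈ U i, f p = a 0) ∧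
      ∃ j, A.getLast? = some j ∧ ∃ q ∈ U j, f q = a (m + 1) := by
  induction m with
  | zero =>
    obtain ⟨A, h1, h2, h3, h4, h5⟩ := engine_visit f K U N hU hc hn (a 0) (a 1) (ha 0 (by omega))
    exact ⟨A, h1, cmp_near_seg h2 h1, h3, engine_chain_of_near f U N hn h2 fun i hi => (h3 i hi).1,
      h4, h5⟩
  | succ m ih =>
    obtain ⟨B, b1, b2, b3, b4, b5, ⟨j, b6, q, b7, b8⟩⟩ := ih fun k hk => ha k (by omega)
    obtain ⟨A, h1, h2, h3, ⟨i, h4, p, h5, h6⟩, ⟨j', h7, q', h8, h9⟩⟩ :=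
      engine_visit f K U N hU hc hn (a (m + 1)) (a (m + 1 + 1)) (ha (m + 1) (by omega))
    refine ⟨B ++ A, ?_, engine_seg_append b2 (cmp_near_seg h2 h1), ?_, ?_, ?_, ?_⟩
    · simp [b1]
    · intro k hk
      rcases List.mem_append.1 hk with hk | hk
      · exact b3 k hk
      · exact h3 k hk
    · refine List.isChain_append.2
        ⟨b4, engine_chain_of_near f U N hn h2 fun i hi => (h3 i hi).1, ?_⟩
      intro x hx y hy
      rw [b6] at hx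
      rw [h4] at hy
      obtain rfl : j = x := Option.some.inj hx
      obtain rfl : i = y := Option.some.inj hy
      exact ⟨q, b7, p, h5, b8.trans h6.symm⟩
    · obtain ⟨i', c1, c2⟩ := b5
      exact ⟨i', by rw [List.head?_append_of_ne_nil _ b1, c1], c2⟩
    · exact ⟨j', by rw [List.getLast?_append_of_ne_nil _ h1, h7], q', h8, h9⟩

/-- A chain of `M` visits gives a good word. -/
theorem ok_base [TopologicalSpace Y] (U : ℕ → Set Y) (N : ℕ) (hU : ∀ i, IsOpen (U i))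
    (hc : ∀ y, ∃ i, i < N ∧ y ∈ U i)
    (hn : ∀ i j, i < N → j < N → ((U i ∩ U j).Nonempty ↔ Nr i j)) (hM : 1 ≤ M) (x : E)
    (a : ℕ → E) (h0 : a 0 = z) (h1 : a M = x) (ha : ∀ k < M, Vis f K (a k) (a (k + 1))) :
    ∃ τ, Ok f K z M U N τ ∧ Ends f U τ x := by
  obtain ⟨m, rfl⟩ : ∃ m, M = m + 1 := ⟨M - 1, by omega⟩
  obtain ⟨A, c1, c2, c3, c4, c5, c6⟩ := engine_visits f K U N hU hc hn a m ha
  subst h0 h1
  exact ⟨A, ⟨c1, c2, c3, c4, c5⟩, c6⟩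

/-- Good words go to good words under refinement. -/
theorem ok_map (U U' : ℕ → Set Y) (N N' : ℕ) (r : ℕ → ℕ)
    (hn' : ∀ i j, i < N' → j < N' → ((U' i ∩ U' j).Nonempty ↔ Nr i j))
    (hn : ∀ i j, i < N → j < N → ((U i ∩ U j).Nonempty ↔ Nr i j))
    (hr : ∀ i, i < N' → r i < N ∧ U' i ⊆ U (r i)) (τ : List ℕ) (h : Ok f K z M U' N' τ) :
    Ok f K z M U N (τ.map r) ∧ ∀ x, Ends f U' τ x → Ends f U (τ.map r) x := by
  have hlt : ∀ i ∈ τ, i < N' := fun i hi => (h.lt i hi).1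
  refine ⟨⟨?_, ?_, ?_, ?_, ?_⟩, ?_⟩
  · simpa using h.ne
  · obtain ⟨l, h1, h2, h3⟩ := h.seg
    refine ⟨l.map (List.map r), by simpa using h1, ?_, ?_⟩
    · intro B hB
      obtain ⟨B', hB', rfl⟩ := List.mem_map.1 hB
      obtain ⟨h4, h5⟩ := h2 B' hB'
      refine ⟨by simpa using h4, ?_⟩
      unfold Near at h5 ⊢
      rw [List.isChain_map]
      refine List.IsChain.imp_of_mem_imp ?_ h5
      intro i j hi hj hij
      have hi' : i < N' := hlt i (by rw [← h3]; exact List.mem_flatten.2 ⟨B', hB', hi⟩)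
      have hj' : j < N' := hlt j (by rw [← h3]; exact List.mem_flatten.2 ⟨B', hB', hj⟩)
      obtain ⟨y, hy1, hy2⟩ := (hn' i j hi' hj').2 hij
      exact (hn (r i) (r j) (hr i hi').1 (hr j hj').1).1 ⟨y, (hr i hi').2 hy1, (hr j hj').2 hy2⟩
    · rw [← h3, List.map_flatten]
  · intro k hk
    obtain ⟨i, hi, rfl⟩ := List.mem_map.1 hk
    obtain ⟨h1, y, h2, h3⟩ := h.lt i hi
    exact ⟨(hr i h1).1, y, (hr i h1).2 h2, h3⟩
  · rw [List.isChain_map]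
    refine List.IsChain.imp_of_mem_imp ?_ h.chain
    rintro i j hi hj ⟨a, ha, b, hb, hab⟩
    exact ⟨a, (hr i (hlt i hi)).2 ha, b, (hr j (hlt j hj)).2 hb, hab⟩
  · obtain ⟨i, h1, p, h2, h3⟩ := h.head
    have hi : i ∈ τ := List.mem_of_mem_head? h1
    exact ⟨r i, by rw [List.head?_map, h1]; rfl, p, (hr i (hlt i hi)).2 h2, h3⟩
  · rintro x ⟨i, h1, q, h2, h3⟩
    have hi : i ∈ τ := List.mem_of_mem_getLast? h1
    exact ⟨r i, by rw [List.getLast?_map, h1]; rfl, q, (hr i (hlt i hi)).2 h2, h3⟩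

/-- Good words go to good words under compression. -/
theorem ok_cmp (U : ℕ → Set Y) (N : ℕ)
    (hn : ∀ i j, i < N → j < N → ((U i ∩ U j).Nonempty ↔ Nr i j)) (τ W : List ℕ)
    (h : Ok f K z M U N τ) (hW : Cmp M τ W) :
    Ok f K z M U N W ∧ ∀ x, Ends f U τ x → Ends f U W x := by
  refine ⟨⟨hW.ne, hW.seg, fun i hi => h.lt i (hW.sub i hi), ?_, ?_⟩, ?_⟩
  · exact hW.adj (Adj f U)
      (fun i hi j hj hij => engine_adj_of_near f U N hn (h.lt i hi).1 (h.lt j hj).1 hij) h.chain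
  · rw [hW.head]
    exact h.head
  · rintro x ⟨i, h1, h2⟩
    exact ⟨i, by rw [hW.last]; exact h1, h2⟩

end

end Pool.Agent.Lib.MP_40f35d_gt.H
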