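import Pool.Agent.Lib.MP_40f35d_gt.H.Base

/-!
# Visits: closedness and exits
-/

set_option autoImplicit false

open Set Topology

namespace Pool.Agent.Lib.MP_40f35d_gt.H

/-- The visits: the images of the components of `f⁻¹(K)`. -/
def Visits {Y E : Type} [TopologicalSpace Y] (f : Y → E) (K : Set E) : Set (Set E) :=
  {T | ∃ y, f y ∈ K ∧ T = f '' connectedComponentIn (f ⁻¹' K) y}

theorem exit_comp {Y : Type} [TopologicalSpace Y] (F V : Set Y) (a : Y) (ha : a ∈ V)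
    (hVF : V ⊆ F) (hV : IsClosed V) (hV' : IsClosed (F \ V)) : connectedComponentIn F a ⊆ V := by
  intro w hw
  by_contra hwV
  have hwF : w ∈ F := connectedComponentIn_subset _ _ hw
  obtain ⟨u, -, hu1, hu2⟩ := isPreconnected_closed_iff.1
    (isPreconnected_connectedComponentIn (F := F) (x := a)) V (F \ V) hV hV'
    (fun x hx => by
      by_cases hxV : x ∈ V
      · exact Or.inl hxV
      · exact Or.inr ⟨connectedComponentIn_subset _ _ hx, hxV⟩)
    ⟨a, mem_connectedComponentIn (hVF ha), ha⟩ ⟨w, hw, hwF, hwV⟩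
  exact hu2.2 hu1

theorem exit_rel {Y : Type} [MetricSpace Y] [CompactSpace Y] (F : Set Y) (hF : IsClosed F) :
    IsClosed {p : Y × Y | p.1 ∈ F ∧ p.2 ∈ connectedComponentIn F p.1} := by
  rw [← isOpen_compl_iff, isOpen_iff_mem_nhds]
  rintro ⟨a, b⟩ hab
  by_cases ha : a ∈ F
  · have hb : b ∉ connectedComponentIn F a := fun h => hab ⟨ha, h⟩
    obtain ⟨V, haV, hVF, hVb, hVc, hVc'⟩ := clopen_nhd F hF a ha {b}ᶜ
      isClosed_singleton.isOpen_compl (fun w hw hwb => hb (by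
        have : w = b := hwb
        exact this ▸ hw))
    have h1 : (F \ V)ᶜ ×ˢ Vᶜ ∈ 𝓝 (a, b) :=
      prod_mem_nhds (hVc'.isOpen_compl.mem_nhds fun h => h.2 haV)
        (hVc.isOpen_compl.mem_nhds fun h => hVb h rfl)
    refine Filter.mem_of_superset h1 ?_
    rintro ⟨a', b'⟩ ⟨ha', hb'⟩ ⟨h2, h3⟩
    have h4 : a' ∈ V := by
      by_contra h
      exact ha' ⟨h2, h⟩
    exact hb' (exit_comp F V a' h4 hVF hVc hVc' h3)
  · have h1 : Fᶜ ×ˢ (univ : Set Y) ∈ 𝓝 (a, b) :=
      prod_mem_nhds (hF.isOpen_compl.mem_nhds ha) Filter.univ_mem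
    refine Filter.mem_of_superset h1 ?_
    rintro ⟨a', b'⟩ ⟨ha', -⟩ ⟨h2, -⟩
    exact ha' h2

theorem visits_closed {Y E : Type} [MetricSpace Y] [CompactSpace Y] [MetricSpace E] (f : Y → E)
    (hf : Continuous f) (K : Set E) (hK : IsCompact K) :
    IsClosed {p : E × E | ∃ T ∈ Visits f K, p.1 ∈ T ∧ p.2 ∈ T} := by
  have hF : IsClosed (f ⁻¹' K) := hK.isClosed.preimage hf
  have h1 : {p : E × E | ∃ T ∈ Visits f K, p.1 ∈ T ∧ p.2 ∈ T} = Prod.map f f ''
      {p : Y × Y | p.1 ∈ f ⁻¹' K ∧ p.2 ∈ connectedComponentIn (f ⁻¹' K) p.1} := by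
    ext ⟨a, b⟩
    constructor
    · rintro ⟨_, ⟨y, hy, rfl⟩, ⟨u, hu, rfl⟩, ⟨v, hv, rfl⟩⟩
      refine ⟨(u, v), ⟨?_, ?_⟩, rfl⟩
      · exact connectedComponentIn_subset _ _ hu
      · have h2 := connectedComponentIn_eq hu
        exact h2 ▸ hv
    · rintro ⟨⟨u, v⟩, ⟨h1, h2⟩, h3⟩
      have h4 : f u = a := congrArg Prod.fst h3
      have h5 : f v = b := congrArg Prod.snd h3
      subst h4 h5
      exact ⟨_, ⟨u, h1, rfl⟩, ⟨u, mem_connectedComponentIn h1, rfl⟩, ⟨v, h2, rfl⟩⟩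
  rw [h1]
  exact ((exit_rel _ hF).isCompact.image (hf.prodMap hf)).isClosed

theorem exit_vis {Y E : Type} [MetricSpace Y] [CompactSpace Y] [MetricSpace E] (f : Y → E)
    (hf : Continuous f) (K : Set E) (hK : IsCompact K) (T : Set E) (hT : T ∈ Visits f K) :
    IsCompact T ∧ IsConnected T ∧ T ⊆ K := by
  have hF : IsClosed (f ⁻¹' K) := hK.isClosed.preimage hf
  obtain ⟨y, hy, rfl⟩ := hT
  have hy' : y ∈ f ⁻¹' K := hy
  refine ⟨(isClosed_cci _ hF y).isCompact.image hf,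
    (isConnected_connectedComponentIn_iff.2 hy').image f hf.continuousOn, ?_⟩
  rintro _ ⟨w, hw, rfl⟩
  have : w ∈ f ⁻¹' K := connectedComponentIn_subset _ _ hw
  exact this

/-- Every visit is contained in a continuum which is not contained in `K`, inside any given
neighbourhood. -/
theorem exit {Y E : Type} [MetricSpace Y] [CompactSpace Y] [ConnectedSpace Y] [MetricSpace E]
    (f : Y → E) (hf : Continuous f) (K : Set E) (hK : IsCompact K) (hne : range f ≠ K)
    (hKf : K ⊆ range f) (T : Set E) (hT : T ∈ Visits f K) (O : Set E) (hO : IsOpen O)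
    (hTO : T ⊆ O) :
    ∃ Q : Set E, IsCompact Q ∧ IsConnected Q ∧ T ⊆ Q ∧ Q ⊆ O ∧ Q ⊆ range f ∧ ¬ Q ⊆ K := by
  have hF : IsClosed (f ⁻¹' K) := hK.isClosed.preimage hf
  obtain ⟨y, hy, rfl⟩ := hT
  have hCO : connectedComponentIn (f ⁻¹' K) y ⊆ f ⁻¹' O := fun w hw => hTO ⟨w, hw, rfl⟩
  obtain ⟨V, hyV, hVF, hVO, hVc, hVc'⟩ := clopen_nhd (f ⁻¹' K) hF y hy (f ⁻¹' O)
    (hO.preimage hf) hCO
  obtain ⟨G, hG, hVG, hGO⟩ := normal_exists_closure_subset hVc
    ((hO.preimage hf).inter hVc'.isOpen_compl) (fun w hw => ⟨hVO hw, fun h => h.2 hw⟩)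
  have hyS : y ∈ closure G := subset_closure (hVG hyV)
  have hCV : connectedComponentIn (f ⁻¹' K) y ⊆ V :=
    exit_comp _ V y hyV hVF hVc hVc'
  have hCD : connectedComponentIn (f ⁻¹' K) y ⊆ connectedComponentIn (closure G) y :=
    isPreconnected_connectedComponentIn.subset_connectedComponentIn
      (mem_connectedComponentIn hy) ((hCV.trans hVG).trans subset_closure)
  refine ⟨f '' connectedComponentIn (closure G) y,
    (isClosed_cci _ isClosed_closure y).isCompact.image hf,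
    (isConnected_connectedComponentIn_iff.2 hyS).image f hf.continuousOn, image_mono hCD,
    ?_, image_subset_range _ _, ?_⟩
  · rintro _ ⟨w, hw, rfl⟩
    exact (hGO (connectedComponentIn_subset _ _ hw)).1
  · intro hQ
    by_cases hS : closure G = univ
    · apply hne
      refine Subset.antisymm ?_ hKf
      rintro _ ⟨w, rfl⟩
      apply hQ
      rw [hS, connectedComponentIn_univ, PreconnectedSpace.connectedComponent_eq_univ]
      exact ⟨w, mem_univ w, rfl⟩
    · obtain ⟨p, hp, hp'⟩ := bump (closure G) isClosed_closure hS y hyS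
      have hpF : p ∈ f ⁻¹' K := hQ ⟨p, hp, rfl⟩
      have hpV : p ∈ V := by
        by_contra h
        exact (hGO (connectedComponentIn_subset _ _ hp)).2 ⟨hpF, h⟩
      obtain ⟨q, hq, hq'⟩ := mem_closure_iff.1 hp' G hG (hVG hpV)
      exact hq' (subset_closure hq)

/-- Finitely many pairwise disjoint visits missing a finite set have pairwise disjoint exits
missing it. -/
theorem exits_disjoint {Y E : Type} [MetricSpace Y] [CompactSpace Y] [ConnectedSpace Y]
    [MetricSpace E] (f : Y → E) (hf : Continuous f) (K : Set E) (hK : IsCompact K)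
    (hne : range f ≠ K) (hKf : K ⊆ range f) (V : Set E) (hV : IsClosed V) (G : Set E)
    (hG : IsOpen G) (hKG : K ⊆ G) (l : ℕ) (T : Fin l → Set E) (hT : ∀ i, T i ∈ Visits f K ∧ Disjoint (T i) V)
    (hd : ∀ i j, i ≠ j → Disjoint (T i) (T j)) :
    ∃ Q : Fin l → Set E, (∀ i, IsCompact (Q i) ∧ IsConnected (Q i) ∧ T i ⊆ Q i ∧
      Q i ⊆ (range f ∩ G) \ V ∧ ¬ Q i ⊆ K) ∧ ∀ i j, i ≠ j → Disjoint (Q i) (Q j) := by
  have hTc : ∀ i, IsCompact (T i) := fun i => (exit_vis f hf K hK (T i) (hT i).1).1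
  have hsep : ∀ i j : Fin l, ∃ U W : Set E, IsOpen U ∧ IsOpen W ∧ (i ≠ j → T i ⊆ U ∧ T j ⊆ W ∧
      Disjoint U W) := by
    intro i j
    by_cases hij : i = j
    · exact ⟨∅, ∅, isOpen_empty, isOpen_empty, fun h => absurd hij h⟩
    · obtain ⟨U, W, hU, hW, h1, h2, h3⟩ :=
        SeparatedNhds.of_isCompact_isCompact (hTc i) (hTc j) (hd i j hij)
      exact ⟨U, W, hU, hW, fun _ => ⟨h1, h2, h3⟩⟩
  choose U W hU hW hUW using hsep
  let O : Fin l → Set E := fun i => (G ∩ Vᶜ) ∩ ⋂ j, {x | i ≠ j → x ∈ U i j ∩ W j i}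
  have hOo : ∀ i, IsOpen (O i) := by
    intro i
    refine (hG.inter hV.isOpen_compl).inter (isOpen_iInter_of_finite fun j => ?_)
    by_cases hij : i = j
    · have : {x | i ≠ j → x ∈ U i j ∩ W j i} = univ := by
        ext x
        simp [hij]
      rw [this]
      exact isOpen_univ
    · have : {x | i ≠ j → x ∈ U i j ∩ W j i} = U i j ∩ W j i := by
        ext x
        simp [hij]
      rw [this]
      exact (hU i j).inter (hW j i)
  have hTO : ∀ i, T i ⊆ O i := by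
    intro i x hx
    refine ⟨⟨hKG ((exit_vis f hf K hK (T i) (hT i).1).2.2 hx), Set.disjoint_left.1 (hT i).2 hx⟩, ?_⟩
    rw [mem_iInter]
    intro j hij
    exact ⟨(hUW i j hij).1 hx, (hUW j i hij.symm).2.1 hx⟩
  have hOd : ∀ i j, i ≠ j → Disjoint (O i) (O j) := by
    intro i j hij
    rw [Set.disjoint_left]
    rintro x ⟨-, hx⟩ ⟨-, hx'⟩
    rw [mem_iInter] at hx hx'
    exact Set.disjoint_left.1 (hUW i j hij).2.2 (hx j hij).1 (hx' i hij.symm).2
  have hex := fun i => exit f hf K hK hne hKf (T i) (hT i).1 (O i) (hOo i) (hTO i)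
  choose Q h1 h2 h3 h4 h5 h6 using hex
  exact ⟨Q, fun i => ⟨h1 i, h2 i, h3 i, fun x hx => ⟨⟨h5 i hx, (h4 i hx).1.1⟩, (h4 i hx).1.2⟩,
    h6 i⟩,
    fun i j hij => (hOd i j hij).mono (h4 i) (h4 j)⟩

end Pool.Agent.Lib.MP_40f35d_gt.H
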