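import Pool.Agent.Lib.MP_40f35d_gt.H.EngineMain
import Pool.Agent.Lib.MP_40f35d_gt.H.Classes
import Pool.Agent.Lib.MP_40f35d_gt.H.Exit

/-!
# A subcontinuum without many disjoint exits is weakly chainable
-/

set_option autoImplicit false

open Set Topology

namespace Pool.Agent.Lib.MP_40f35d_gt.H

theorem lev_vis {Y E : Type} [TopologicalSpace Y] [MetricSpace E] (f : Y → E) (K : Set E) (z : E)
    (k : ℕ) : ∀ x ∈ Lev (Visits f K) z k, ∃ a : ℕ → E, a 0 = z ∧ a k = x ∧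
      ∀ j < k, Vis f K (a j) (a (j + 1)) := by
  induction k with
  | zero =>
    intro x hx
    have hx' : x = z := hx
    exact ⟨fun _ => z, rfl, hx'.symm, fun j hj => absurd hj (Nat.not_lt_zero j)⟩
  | succ k ih =>
    rintro x ⟨y, hy, T, hT, hyT, hxT⟩
    obtain ⟨a, h0, h1, h2⟩ := ih y hy
    refine ⟨fun j => if j ≤ k then a j else x, ?_, ?_, ?_⟩
    · simp [h0]
    · simp
    · intro j hj
      rcases Nat.lt_or_ge j k with hjk | hjk
      · have e1 : j ≤ k := hjk.le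
        have e2 : j + 1 ≤ k := hjk
        simp only [e1, e2, if_true]
        exact h2 j hjk
      · have e : j = k := by omega
        subst e
        have e2 : ¬ j + 1 ≤ j := by omega
        simp only [le_refl, e2, if_true, if_false]
        obtain ⟨w, hw, rfl⟩ := hT
        refine ⟨connectedComponentIn (f ⁻¹' K) w, isPreconnected_connectedComponentIn, ?_, ?_, hxT⟩
        · rintro _ ⟨v, hv, rfl⟩
          exact connectedComponentIn_subset (f ⁻¹' K) w hv
        · rw [h1]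
          exact hyT

/-- For every map `f` of a chainable continuum onto `X` some connected set `C` has
`S ⊆ f(C) ⊆ K`. -/
def Caught {E : Type} [MetricSpace E] (X K S : Set E) : Prop :=
  ∀ (Y : Type) (_ : MetricSpace Y), CompactSpace Y → ConnectedSpace Y → Chainable Y →
    ∀ f : Y → E, Continuous f → range f = X → ∃ C : Set Y, IsConnected C ∧ S ⊆ f '' C ∧ f '' C ⊆ K

theorem caught_lev {Y E : Type} [MetricSpace Y] [CompactSpace Y] [ConnectedSpace Y]
    [MetricSpace E] (hY : Chainable Y) (f : Y → E) (hf : Continuous f) (X K : Set E)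
    (hr : range f = X) (u v : E) (M : ℕ) (a : ℕ → E) (h0 : a 0 = u) (h1 : a M = v)
    (h2 : ∀ k < M, ∃ S, Caught X K S ∧ a k ∈ S ∧ a (k + 1) ∈ S) :
    v ∈ Lev (Visits f K) u M := by
  have h : ∀ k, k ≤ M → a k ∈ Lev (Visits f K) u k := by
    intro k
    induction k with
    | zero => intro _; exact h0
    | succ k ih =>
      intro hk
      obtain ⟨S, hS, hS1, hS2⟩ := h2 k hk
      obtain ⟨C, hC, hSC, hCK⟩ := hS Y inferInstance inferInstance inferInstance hY f hf hr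
      obtain ⟨c, hc, hca⟩ := hSC hS1
      have hcF : C ⊆ f ⁻¹' K := fun w hw => hCK ⟨w, hw, rfl⟩
      have hsub : C ⊆ connectedComponentIn (f ⁻¹' K) c :=
        hC.isPreconnected.subset_connectedComponentIn hc hcF
      refine ⟨a k, ih (by omega), f '' connectedComponentIn (f ⁻¹' K) c, ⟨c, hcF hc, rfl⟩,
        ⟨c, hsub hc, hca⟩, ?_⟩
      obtain ⟨d, hd, hda⟩ := hSC hS2
      exact ⟨d, hsub hd, hda⟩
  rw [← h1]
  exact h M le_rfl

theorem main {E : Type} [MetricSpace E] (X K V : Set E) (hX : WC X) (hKX : K ⊆ X)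
    (hK : IsCompact K) (hKc : IsConnected K) (hV : IsClosed V) (F : Set E) (hF : F.Finite) (M : ℕ)
    (hch : ∀ v ∈ V, ∃ u ∈ F, ∃ a : ℕ → E, a 0 = u ∧ a M = v ∧
      ∀ k < M, ∃ S, Caught X K S ∧ a k ∈ S ∧ a (k + 1) ∈ S)
    (G : Set E) (hG : IsOpen G) (hKG : K ⊆ G) (l : ℕ)
    (hno : ¬ ∃ (B : Set E) (Q : Fin l → Set E), IsCompact B ∧ IsConnected B ∧ B ⊆ K \ V ∧
      (∀ i, IsCompact (Q i) ∧ IsConnected (Q i) ∧ Q i ⊆ (X ∩ G) \ V ∧ (Q i ∩ B).Nonempty ∧
        ¬ Q i ⊆ K) ∧ ∀ i j, i ≠ j → Disjoint (Q i) (Q j)) : WC K := by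
  by_cases hXK : K = X
  · rw [hXK]
    exact hX
  obtain ⟨Y, i1, i2, i3, hY, f, hf, hr⟩ := hX
  have hKf : K ⊆ range f := by
    rw [hr]
    exact hKX
  have hne : range f ≠ K := by
    rw [hr]
    exact fun h => hXK h.symm
  obtain ⟨z, hz⟩ := hKc.nonempty
  have hcov : ∀ x ∈ K, ∃ T ∈ Visits f K, x ∈ T := by
    intro x hx
    obtain ⟨y, rfl⟩ := hKf hx
    exact ⟨_, ⟨y, hx, rfl⟩, y, mem_connectedComponentIn hx, rfl⟩
  have h𝒯 : ∀ T ∈ Visits f K, IsConnected T ∧ IsCompact T ∧ T ⊆ K := fun T hT =>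
    ⟨(exit_vis f hf K hK T hT).2.1, (exit_vis f hf K hK T hT).1, (exit_vis f hf K hK T hT).2.2⟩
  have hcl := visits_closed f hf K hK
  have hsm : Small (Visits f K) K V :=
    small_of_chain (Visits f K) K hK h𝒯 hcov hcl V F hV hF M (by
      intro v hv
      obtain ⟨u, hu, a, h0, h1, h2⟩ := hch v hv
      exact ⟨u, hu, caught_lev hY f hf X K hr u v M a h0 h1 h2⟩)
  obtain ⟨N, hN⟩ := one_class (Visits f K) K hK h𝒯 hcov hcl V hsm (l + 1)
    (Nat.succ_pos l) (by
      rintro ⟨B, T, h1, h2, h3, h4, h5⟩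
      obtain ⟨Q, hQ, hQd⟩ := exits_disjoint f hf K hK hne hKf V hV G hG hKG l
        (fun i => T i.castSucc)
        (fun i => ⟨(h4 i.castSucc).1, (h4 i.castSucc).2.1⟩)
        (fun i j hij => h5 _ _ (fun h => hij (Fin.castSucc_injective l h)))
      refine hno ⟨B, Q, h1, h2, h3, fun i => ?_, hQd⟩
      obtain ⟨c1, c2, c3, c4, c5⟩ := hQ i
      rw [hr] at c4
      exact ⟨c1, c2, c4, (h4 i.castSucc).2.2.mono (inter_subset_inter_left _ c3), c5⟩) hKc z hz
  exact engine hY f hf K hK hKf z hz N (fun x hx => lev_vis f K z N x (hN x hx))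

end Pool.Agent.Lib.MP_40f35d_gt.H
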