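import Pool.Agent.Lib.MP_40f35d_gt.H.Base

/-!
# Reading a word along a word
-/

set_option autoImplicit false

namespace Pool.Agent.Lib.MP_40f35d_gt.H

theorem nr_symm {i j : ℕ} (h : Nr i j) : Nr j i := ⟨h.2, h.1⟩

theorem Rd.append {W A B : List ℕ} {p q p' r : ℕ} (h : Rd W A p q) (h' : Rd W B p' r)
    (hn : Nr q p') : Rd W (A ++ B) p r := by
  induction h with
  | one x p hx => exact Rd.cons x B p p' r hx hn h'
  | cons x A p p'' q hx hp _ ih => exact Rd.cons x (A ++ B) p p'' r hx hp (ih hn)

theorem Rd.reverse {W A : List ℕ} {p q : ℕ} (h : Rd W A p q) : Rd W A.reverse q p := by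
  induction h with
  | one x p hx => exact Rd.one x p hx
  | cons x A p p' q hx hp _ ih =>
    rw [List.reverse_cons]
    exact ih.append (Rd.one x p hx) (nr_symm hp)

theorem Rd.lt {W A : List ℕ} {p q : ℕ} (h : Rd W A p q) : p < W.length ∧ q < W.length := by
  induction h with
  | one x p hx =>
    have := (List.getElem?_eq_some_iff.1 hx).1
    exact ⟨this, this⟩
  | cons x A p p' q hx hp _ ih => exact ⟨(List.getElem?_eq_some_iff.1 hx).1, ih.2⟩

theorem Rd.left {W A : List ℕ} {p q : ℕ} (V : List ℕ) (h : Rd W A p q) : Rd (W ++ V) A p q := by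
  induction h with
  | one x p hx =>
    refine Rd.one x p ?_
    rw [List.getElem?_append_left (List.getElem?_eq_some_iff.1 hx).1]
    exact hx
  | cons x A p p' q hx hp _ ih =>
    refine Rd.cons x A p p' q ?_ hp ih
    rw [List.getElem?_append_left (List.getElem?_eq_some_iff.1 hx).1]
    exact hx

theorem Rd.right {W A : List ℕ} {p q : ℕ} (V : List ℕ) (h : Rd W A p q) :
    Rd (V ++ W) A (V.length + p) (V.length + q) := by
  induction h with
  | one x p hx =>
    refine Rd.one x _ ?_
    rw [List.getElem?_append_right (Nat.le_add_right _ _), Nat.add_sub_cancel_left]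
    exact hx
  | cons x A p p' q hx hp _ ih =>
    refine Rd.cons x A _ _ _ ?_ ?_ ih
    · rw [List.getElem?_append_right (Nat.le_add_right _ _), Nat.add_sub_cancel_left]
      exact hx
    · obtain ⟨h1, h2⟩ := hp
      constructor <;> omega

theorem Rd.mirror {W A : List ℕ} {p q : ℕ} (h : Rd W A p q) :
    Rd W.reverse A (W.length - 1 - p) (W.length - 1 - q) := by
  induction h with
  | one x p hx =>
    have hp := (List.getElem?_eq_some_iff.1 hx).1
    refine Rd.one x _ ?_
    rw [List.getElem?_reverse (by omega)]
    rw [show W.length - 1 - (W.length - 1 - p) = p by omega]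
    exact hx
  | cons x A p p' q hx hp h ih =>
    have hp1 := (List.getElem?_eq_some_iff.1 hx).1
    have hp2 := h.lt.1
    refine Rd.cons x A _ _ _ ?_ ?_ ih
    · rw [List.getElem?_reverse (by omega)]
      rw [show W.length - 1 - (W.length - 1 - p) = p by omega]
      exact hx
    · obtain ⟨h1, h2⟩ := hp
      constructor <;> omega

theorem Rd.join {W V A B : List ℕ} (hW : W ≠ []) (hV : V ≠ []) (h : Rd W A 0 (W.length - 1))
    (h' : Rd V B 0 (V.length - 1)) : Rd (W ++ V) (A ++ B) 0 ((W ++ V).length - 1) := by
  have h1 : 0 < W.length := List.length_pos_iff.2 hW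
  have h2 : 0 < V.length := List.length_pos_iff.2 hV
  have h3 := (h.left V).append (h'.right W) (by constructor <;> omega)
  rw [List.length_append, show W.length + V.length - 1 = W.length + (V.length - 1) by omega]
  exact h3

/-- A near path with letters in `[a, a+n]` can be read along the word `a, a+1, .., a+n`. -/
theorem rd_range (a n : ℕ) (A : List ℕ) (hA : Near A) (h : ∀ i ∈ A, a ≤ i ∧ i ≤ a + n)
    (x y : ℕ) (hx : A.head? = some x) (hy : A.getLast? = some y) :
    Rd (List.range' a (n + 1)) A (x - a) (y - a) := by
  induction A generalizing x with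
  | nil => simp at hx
  | cons b B ih =>
    have hb : b = x := by simpa using hx
    subst hb
    have hb' := h b List.mem_cons_self
    have hget : (List.range' a (n + 1))[b - a]? = some b := by
      rw [List.getElem?_range' (by omega)]
      simp only [one_mul, Option.some.injEq]
      omega
    cases B with
    | nil =>
      have hyb : b = y := by simpa using hy
      subst hyb
      exact Rd.one _ _ hget
    | cons c C =>
      have hA' : Nr b c ∧ Near (c :: C) := by
        have := List.isChain_cons_cons.1 hA
        exact this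
      have hc' := h c (List.mem_cons_of_mem _ List.mem_cons_self)
      refine Rd.cons b (c :: C) (b - a) (c - a) (y - a) hget ?_
        (ih hA'.2 (fun i hi => h i (List.mem_cons_of_mem _ hi)) c rfl ?_)
      · obtain ⟨h1, h2⟩ := hA'.1
        constructor <;> omega
      · rw [← hy, List.getLast?_cons_cons]

/-- The positions of a reading as a function. -/
theorem Rd.fn {W A : List ℕ} {p q : ℕ} (h : Rd W A p q) :
    ∃ s : ℕ → ℕ, s 0 = p ∧ s (A.length - 1) = q ∧
      (∀ i, i < A.length → s i < W.length ∧ W[s i]? = A[i]?) ∧
      ∀ i, i + 1 < A.length → Nr (s i) (s (i + 1)) := by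
  induction h with
  | one x p hx =>
    refine ⟨fun _ => p, rfl, rfl, ?_, ?_⟩
    · intro i hi
      have : i = 0 := by simpa using hi
      subst this
      exact ⟨(List.getElem?_eq_some_iff.1 hx).1, by simpa using hx⟩
    · intro i hi
      simp at hi
  | cons x A p p' q hx hp h ih =>
    obtain ⟨s, h0, h1, h2, h3⟩ := ih
    have hA : 0 < A.length := by
      cases h with
      | one => simp
      | cons => simp
    refine ⟨fun k => Nat.casesOn k p s, rfl, ?_, ?_, ?_⟩
    · obtain ⟨m, hm⟩ : ∃ m, A.length = m + 1 := ⟨A.length - 1, by omega⟩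
      rw [List.length_cons, hm]
      rw [hm] at h1
      exact h1
    · intro i hi
      cases i with
      | zero => exact ⟨(List.getElem?_eq_some_iff.1 hx).1, by simpa using hx⟩
      | succ i =>
        have := h2 i (by rw [List.length_cons] at hi; omega)
        refine ⟨this.1, ?_⟩
        rw [List.getElem?_cons_succ]
        exact this.2
    · intro i hi
      cases i with
      | zero =>
        change Nr p (s 0)
        rw [h0]
        exact hp
      | succ i =>
        exact h3 i (by rw [List.length_cons] at hi; omega)

end Pool.Agent.Lib.MP_40f35d_gt.H
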